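import Pool.Agent.Lib.H64A.Defs

/-!
# H64A, chunk B1: blocks of a configuration of vectors
-/

set_option autoImplicit false

namespace Pool.Agent.Lib.H64A

open Finset

variable {V : Type*} [AddCommGroup V] [Module ℂ V] {n : ℕ} {f : Fin n → V}

private theorem b1_mem (i j k : Fin n) : k ∈ blk (dep f) i j ↔ ¬ LinearIndependent ℂ ![f i, f j, f k] := by
  classical
  unfold blk
  simp only [Finset.mem_filter, Finset.mem_univ, true_and]
  rfl

/-- **Chunk B1 (1).** -/
theorem mem_blk_left (i j : Fin n) : i ∈ blk (dep f) i j := by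
  rw [b1_mem]
  intro h
  have h1 : (0 : Fin 3) = 2 := h.injective rfl
  exact absurd h1 (by decide)

/-- **Chunk B1 (2).** -/
theorem mem_blk_right (i j : Fin n) : j ∈ blk (dep f) i j := by
  rw [b1_mem]
  intro h
  have h1 : (1 : Fin 3) = 2 := h.injective rfl
  exact absurd h1 (by decide)

omit [AddCommGroup V] [Module ℂ V] in
private theorem b1_snoc (a b c : V) : ![a, b, c] = (Fin.snoc ![a, b] c : Fin 3 → V) := by
  funext t
  fin_cases t <;> rfl

omit [AddCommGroup V] [Module ℂ V] in
private theorem b1_range (a b : V) : Set.range ![a, b] = ({a, b} : Set V) := by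
  ext x
  simp [eq_comm, or_comm]

/-- **Chunk B1 (3).** For independent `f i`, `f j`, a member `f k` is in the block iff it is in the span. -/
theorem mem_blk_iff {i j : Fin n} (h : LinearIndependent ℂ ![f i, f j]) (k : Fin n) :
    k ∈ blk (dep f) i j ↔ f k ∈ Submodule.span ℂ ({f i, f j} : Set V) := by
  rw [b1_mem, b1_snoc, linearIndependent_finSnoc, b1_range]
  tauto

private theorem b1_finrank {a b : V} (h : LinearIndependent ℂ ![a, b]) :
    Module.finrank ℂ (Submodule.span ℂ ({a, b} : Set V)) = 2 := by
  have := finrank_span_eq_card h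
  rw [b1_range] at this
  simpa using this

/-- **Chunk B1 (4).** Two different members of a block determine the block (the spans are equal: two independent vectors in a plane
span it). -/
theorem blk_eq (hf : ∀ i j, i ≠ j → LinearIndependent ℂ ![f i, f j]) {i j k l : Fin n} (hij : i ≠ j)
    (hkl : k ≠ l) (hk : k ∈ blk (dep f) i j) (hl : l ∈ blk (dep f) i j) :
    blk (dep f) k l = blk (dep f) i j := by
  rw [mem_blk_iff (hf i j hij)] at hk hl
  have hle : Submodule.span ℂ ({f k, f l} : Set V) ≤ Submodule.span ℂ ({f i, f j} : Set V) := by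
    rw [Submodule.span_le]
    rintro x (rfl | rfl)
    · exact hk
    · exact hl
  have : Module.Finite ℂ (Submodule.span ℂ ({f i, f j} : Set V)) :=
    FiniteDimensional.span_of_finite ℂ (Set.toFinite _)
  have heq : Submodule.span ℂ ({f k, f l} : Set V) = Submodule.span ℂ ({f i, f j} : Set V) :=
    Submodule.eq_of_le_of_finrank_eq hle (by rw [b1_finrank (hf k l hkl), b1_finrank (hf i j hij)])
  ext m
  rw [mem_blk_iff (hf k l hkl), mem_blk_iff (hf i j hij), heq]

/-- **Chunk B1 (5).** If three vectors are independent, no block contains everything. -/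
theorem blk_proper (hf : ∀ i j, i ≠ j → LinearIndependent ℂ ![f i, f j])
    (hg : ∃ i j k, LinearIndependent ℂ ![f i, f j, f k]) {i j : Fin n} (hij : i ≠ j) :
    ∃ k, k ∉ blk (dep f) i j := by
  by_contra hcon
  push Not at hcon
  obtain ⟨a, b, c, h⟩ := hg
  have : Module.Finite ℂ (Submodule.span ℂ ({f i, f j} : Set V)) :=
    FiniteDimensional.span_of_finite ℂ (Set.toFinite _)
  have hle : Submodule.span ℂ (Set.range ![f a, f b, f c]) ≤ Submodule.span ℂ ({f i, f j} : Set V) := by
    rw [Submodule.span_le]
    rintro x ⟨t, rfl⟩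
    have h1 : ∀ m, f m ∈ Submodule.span ℂ ({f i, f j} : Set V) := fun m =>
      (mem_blk_iff (hf i j hij) m).1 (hcon m)
    fin_cases t
    · exact h1 a
    · exact h1 b
    · exact h1 c
  have h2 := Submodule.finrank_mono hle
  rw [b1_finrank (hf i j hij), finrank_span_eq_card h] at h2
  simp at h2

end Pool.Agent.Lib.H64A
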