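import Pool.Agent.Lib.H64A.Defs

/-!
# H64A, chunk C1: double counting
-/

set_option autoImplicit false

namespace Pool.Agent.Lib.H64A

open Finset

/-- **Chunk C1.** Every pair `(i, j)` with `i ∈ S`, `j ∉ S` is in exactly one block, and this block is in `cross P S`.
(Write the sum as the cardinality of the disjoint union of the `(X ∩ S) ×ˢ (X \ S)`, `Finset.card_biUnion`, which is `S ×ˢ (univ \ S)`.) -/
theorem cross_count {n : ℕ} {P : Finset (Finset (Fin n))} (h : Sys P) (S : Finset (Fin n)) :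
    ∑ X ∈ cross P S, (X ∩ S).card * (X \ S).card = S.card * (univ \ S).card := by
  rw [← Finset.card_product]
  have h1 : S ×ˢ (univ \ S) = (cross P S).biUnion fun X => (X ∩ S) ×ˢ (X \ S) := by
    ext ⟨i, j⟩
    simp only [Finset.mem_product, Finset.mem_biUnion, Finset.mem_sdiff, Finset.mem_univ, true_and,
      Finset.mem_inter, cross, Finset.mem_filter]
    constructor
    · rintro ⟨hi, hj⟩
      have hij : i ≠ j := by
        rintro rfl
        exact hj hi
      obtain ⟨X, hX, hiX, hjX⟩ := h.pair i j hij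
      exact ⟨X, ⟨hX, ⟨i, Finset.mem_inter.2 ⟨hiX, hi⟩⟩, ⟨j, Finset.mem_sdiff.2 ⟨hjX, hj⟩⟩⟩, ⟨hiX, hi⟩, ⟨hjX, hj⟩⟩
    · rintro ⟨X, -, ⟨-, hi⟩, ⟨-, hj⟩⟩
      exact ⟨hi, hj⟩
  rw [h1, Finset.card_biUnion]
  · exact Finset.sum_congr rfl fun X _ => (Finset.card_product _ _).symm
  · intro X hX Y hY hXY
    rw [Function.onFun, Finset.disjoint_left]
    rintro ⟨i, j⟩ hi hj
    simp only [Finset.mem_product, Finset.mem_sdiff, Finset.mem_inter] at hi hj
    apply hXY
    have hij : i ≠ j := by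
      rintro rfl
      exact hi.2.2 hi.1.2
    exact h.uniq X (Finset.mem_filter.1 hX).1 Y (Finset.mem_filter.1 hY).1 i j hij hi.1.1 hi.2.1 hj.1.1 hj.2.1

end Pool.Agent.Lib.H64A
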