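import Mathlib

/-!
# H64A, chunk C10: a dominant class or a balanced union of classes
-/

set_option autoImplicit false

namespace Pool.Agent.Lib.H64A

open Finset

private theorem c10_fin {n p : ℕ} [NeZero p] (τ : Fin n → ZMod p) (S0 : Finset (Fin n))
    (hS : ∀ i j, τ i = τ j → (i ∈ S0 ↔ j ∈ S0)) (h1 : 4 * n ≤ 13 * S0.card) (h2 : 13 * S0.card ≤ 9 * n) :
    ∃ S : Finset (Fin n), (∀ i j, τ i = τ j → (i ∈ S ↔ j ∈ S)) ∧
      (univ \ S).card ≤ S.card ∧ 4 * S.card ≤ 9 * (univ \ S).card := by
  have hc : S0.card + (univ \ S0).card = n := by
    have := Finset.card_sdiff_add_card_eq_card (Finset.subset_univ S0)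
    rw [Finset.card_univ, Fintype.card_fin] at this
    omega
  rcases le_total (univ \ S0).card S0.card with h | h
  · exact ⟨S0, hS, h, by omega⟩
  · refine ⟨univ \ S0, fun i j hij => ?_, ?_, ?_⟩
    · rw [Finset.mem_sdiff, Finset.mem_sdiff, hS i j hij]
      simp
    · rw [Finset.sdiff_sdiff_eq_self (Finset.subset_univ _)]
      exact h
    · rw [Finset.sdiff_sdiff_eq_self (Finset.subset_univ _)]
      omega

/-- **Chunk C10.** For a function `τ` on a nonempty finite set either one value is taken on more than `9/13` of the elements, or there is a union `S` of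
fibres with `|univ \ S| ≤ |S| ≤ (9/4) |univ \ S|`.

Proof. Let `N a = #{i | τ i = a}`, `a₀` with `N a₀` maximal. If `13 N a₀ > 9 n` the first alternative holds. If `4 n ≤ 13 N a₀ ≤ 9 n` take
`S₀ = {τ = a₀}`. If `13 N a₀ < 4 n`, add the fibres one after the other (e.g. `S_k = {i | (e (τ i)) < k}` for an enumeration `e` of the finite type
`ZMod p`, or induction over a Finset of values): the first `S_k` with `13 |S_k| ≥ 4 n` has `13 |S_k| < 8 n`. In both cases
`4 n ≤ 13 |S₀| ≤ 9 n`; take `S = S₀` or its complement, whichever is larger. -/
theorem split {n p : ℕ} [NeZero p] (hn : 0 < n) (τ : Fin n → ZMod p) :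
    (∃ a : ZMod p, 9 * (univ \ univ.filter fun i => τ i = a).card <
      4 * (univ.filter fun i => τ i = a).card) ∨
    ∃ S : Finset (Fin n), (∀ i j, τ i = τ j → (i ∈ S ↔ j ∈ S)) ∧
      (univ \ S).card ≤ S.card ∧ 4 * S.card ≤ 9 * (univ \ S).card := by
  have hc : ∀ S0 : Finset (Fin n), S0.card + (univ \ S0).card = n := by
    intro S0
    have := Finset.card_sdiff_add_card_eq_card (Finset.subset_univ S0)
    rw [Finset.card_univ, Fintype.card_fin] at this
    omega
  by_cases hA : ∃ a : ZMod p, 4 * n ≤ 13 * (univ.filter fun i => τ i = a).card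
  · obtain ⟨a, ha⟩ := hA
    have := hc (univ.filter fun i => τ i = a)
    rcases Nat.lt_or_ge (9 * n) (13 * (univ.filter fun i => τ i = a).card) with h | h
    · left
      exact ⟨a, by omega⟩
    · right
      refine c10_fin τ (univ.filter fun i => τ i = a) (fun i j hij => ?_) ha h
      simp [hij]
  · push Not at hA
    right
    -- add the fibres one after the other
    have key : ∀ V : Finset (ZMod p), (∃ W ⊆ V, 4 * n ≤ 13 * (univ.filter fun i => τ i ∈ W).card ∧
        13 * (univ.filter fun i => τ i ∈ W).card ≤ 9 * n) ∨ 13 * (univ.filter fun i => τ i ∈ V).card < 4 * n := by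
      intro V
      induction V using Finset.induction_on with
      | empty =>
        right
        simp
        exact hn
      | insert a V ha ih =>
        rcases ih with ⟨W, hW, h1⟩ | ih
        · left
          exact ⟨W, hW.trans (Finset.subset_insert _ _), h1⟩
        · have h1 : (univ.filter fun i => τ i ∈ insert a V).card ≤
              (univ.filter fun i => τ i = a).card + (univ.filter fun i => τ i ∈ V).card := by
            refine le_trans (Finset.card_le_card ?_) (Finset.card_union_le _ _)
            intro i hi
            simp only [Finset.mem_filter, Finset.mem_univ, true_and, Finset.mem_insert, Finset.mem_union] at hi ⊢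
            exact hi
          have h2 := hA a
          rcases Nat.lt_or_ge (13 * (univ.filter fun i => τ i ∈ insert a V).card) (4 * n) with h | h
          · right
            exact h
          · left
            exact ⟨insert a V, subset_rfl, h, by omega⟩
    rcases key univ with ⟨W, -, h1, h2⟩ | h
    · refine c10_fin τ (univ.filter fun i => τ i ∈ W) (fun i j hij => ?_) h1 h2
      simp [hij]
    · exfalso
      simp at h
      omega

end Pool.Agent.Lib.H64A
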