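import Pool.Agent.Lib.H64A.Defs

/-!
# H64A, chunk C2: the energy inequality for two weights
-/

set_option autoImplicit false

namespace Pool.Agent.Lib.H64A

open Finset

private theorem c2_sum {n : ℕ} (S X : Finset (Fin n)) (a b : ℝ) :
    ∑ i ∈ X, (if i ∈ S then a else b) = a * (X ∩ S).card + b * (X \ S).card := by
  rw [Finset.sum_ite, Finset.sum_const, Finset.sum_const, nsmul_eq_mul, nsmul_eq_mul,
    Finset.filter_mem_eq_inter, Finset.filter_notMem_eq_sdiff]
  ring

/-- **Chunk C2.** `Sys.energy` for the weight `θ` on `S` and `1` outside of `S`, and `Q = cross P S`. -/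
theorem energy_two {n : ℕ} {P : Finset (Finset (Fin n))} (h : Sys P) (S : Finset (Fin n)) {θ : ℝ}
    (h0 : 0 < θ) (h1 : 3 < θ * S.card + (univ \ S).card)
    (h2 : 3 * θ < θ * S.card + (univ \ S).card)
    (hst : ∀ X ∈ P, 3 * (θ * (X ∩ S).card + (X \ S).card) < 2 * (θ * S.card + (univ \ S).card)) :
    ∑ X ∈ cross P S, ((θ * (X ∩ S).card + (X \ S).card) ^ 2 / 2 - θ ^ 2 * (X ∩ S).card
      - (X \ S).card) ≤
      (θ * S.card + (univ \ S).card) ^ 2 / 3 - θ ^ 2 * S.card - (univ \ S).card := by
  have e1 : ∀ X : Finset (Fin n), ∑ i ∈ X, (if i ∈ S then θ else 1) = θ * (X ∩ S).card + (X \ S).card := by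
    intro X
    rw [c2_sum, one_mul]
  have e2 : ∀ X : Finset (Fin n), ∑ i ∈ X, (if i ∈ S then θ else 1) ^ 2 = θ ^ 2 * (X ∩ S).card + (X \ S).card := by
    intro X
    have : ∀ i, (if i ∈ S then θ else 1) ^ 2 = if i ∈ S then θ ^ 2 else 1 := by
      intro i
      split_ifs <;> simp
    simp only [this]
    rw [c2_sum, one_mul]
  have e3 : (∑ j, (if j ∈ S then θ else 1)) = θ * S.card + (univ \ S).card := by
    rw [e1, Finset.univ_inter]
  have e4 : (∑ j, (if j ∈ S then θ else 1) ^ 2) = θ ^ 2 * S.card + (univ \ S).card := by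
    rw [e2, Finset.univ_inter]
  have h3 := h.energy (fun i => if i ∈ S then θ else 1) (by
      intro i
      split_ifs
      · exact h0
      · exact one_pos) (by
      intro i
      rw [e3]
      split_ifs
      · exact h2
      · linarith) (by
      intro X hX
      rw [e3, e1]
      exact hst X hX) (cross P S) (Finset.filter_subset _ _)
  simp only [e1, e2] at h3
  rw [Finset.univ_inter] at h3
  refine le_trans (le_of_eq ?_) (h3.trans (le_of_eq ?_))
  · refine Finset.sum_congr rfl fun X _ => ?_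
    ring
  · ring

end Pool.Agent.Lib.H64A
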