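import Pool.Agent.Lib.H64A.Defs

/-!
# H64A, chunk C3: stability, dominant case
-/

set_option autoImplicit false

namespace Pool.Agent.Lib.H64A

open Finset

/-- the injection used three times -/
theorem C3_inj {n : ℕ} {P : Finset (Finset (Fin n))} (h : Sys P) (S : Finset (Fin n))
    (h2 : ∀ X ∈ cross P S, 2 ≤ (X \ S).card) (X : Finset (Fin n)) (hX : X ∈ P) (G : Fin n)
    (hG : G ∉ X) (A : Finset (Fin n)) (hAX : A ⊆ X) (hA : ∀ H ∈ A, (G ∈ S ↔ H ∉ S)) :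
    A.card ≤ (((univ \ S) \ X).erase G).card := by
  classical
  have key : ∀ H ∈ A, ∃ z, (∃ Y ∈ P, G ∈ Y ∧ H ∈ Y ∧ z ∈ Y) ∧ z ∉ S ∧ z ≠ G ∧ z ≠ H := by
    intro H hH
    have hGH : G ≠ H := by
      rintro rfl
      exact hG (hAX hH)
    obtain ⟨Y, hY, hGY, hHY⟩ := h.pair G H hGH
    have hcross : Y ∈ cross P S := by
      unfold cross
      rw [mem_filter]
      by_cases hGS : G ∈ S
      · exact ⟨hY, ⟨G, mem_inter.2 ⟨hGY, hGS⟩⟩, ⟨H, mem_sdiff.2 ⟨hHY, (hA H hH).1 hGS⟩⟩⟩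
      · have hHS : H ∈ S := by
          by_contra hc
          exact hGS ((hA H hH).2 hc)
        exact ⟨hY, ⟨H, mem_inter.2 ⟨hHY, hHS⟩⟩, ⟨G, mem_sdiff.2 ⟨hGY, hGS⟩⟩⟩
    have hcard := h2 Y hcross
    by_cases hGS : G ∈ S
    · obtain ⟨z, hz, hzH⟩ := Finset.exists_mem_ne (by omega : 1 < (Y \ S).card) H
      rw [mem_sdiff] at hz
      refine ⟨z, ⟨Y, hY, hGY, hHY, hz.1⟩, hz.2, ?_, hzH⟩
      rintro rfl
      exact hz.2 hGS
    · have hHS : H ∈ S := by
        by_contra hc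
        exact hGS ((hA H hH).2 hc)
      obtain ⟨z, hz, hzG⟩ := Finset.exists_mem_ne (by omega : 1 < (Y \ S).card) G
      rw [mem_sdiff] at hz
      refine ⟨z, ⟨Y, hY, hGY, hHY, hz.1⟩, hz.2, hzG, ?_⟩
      rintro rfl
      exact hz.2 hHS
  choose! f hf using key
  apply Finset.card_le_card_of_injOn f
  · intro H hH
    obtain ⟨⟨Y, hY, hGY, hHY, hzY⟩, hzS, hzG, hzH⟩ := hf H hH
    rw [mem_coe, mem_erase, mem_sdiff, mem_sdiff]
    refine ⟨hzG, ⟨mem_univ _, hzS⟩, ?_⟩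
    intro hzX
    have hXY := h.uniq X hX Y hY (f H) H hzH hzX (hAX hH) hzY hHY
    rw [hXY] at hG
    exact hG hGY
  · intro H hH H' hH' hff
    obtain ⟨⟨Y, hY, hGY, hHY, hzY⟩, hzS, hzG, hzH⟩ := hf H hH
    obtain ⟨⟨Y', hY', hGY', hHY', hzY'⟩, hzS', hzG', hzH'⟩ := hf H' hH'
    rw [← hff] at hzY'
    have hYY := h.uniq Y hY Y' hY' (f H) G hzG hzY hGY hzY' hGY'
    subst hYY
    by_contra hne
    have hXY := h.uniq X hX Y hY H H' hne (hAX hH) (hAX hH') hHY hHY'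
    rw [hXY] at hG
    exact hG hGY

/-- **Chunk C3.** Let `X ∈ P`, `s₀ = |X ∩ S|`, `t₀ = |X \ S|`, `s₁ = |S \ X|`, `t₁ = |(univ \ S) \ X|`. The claim is
`θ s₀ + t₀ < 2 θ s₁ + 2 t₁`.

(a) `t₁ ≥ 1`. Otherwise all elements outside of `S` are in `X`; let `H` be one (`hS'`), and let `k ∉ X` (`Sys.proper`), so `k ∈ S`. The block
`Y` of `k, H` has `Y ∩ X = {H}` (if it had another common element, `Y = X` by `uniq`, but `k ∉ X`), so `Y \ S ⊆ Y ∩ X = {H}`, while
`Y ∈ cross P S`, contradicting `h2`.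
(b) `t₁ ≥ s₀ + 1`: let `G ∉ S`, `G ∉ X`. For `H ∈ X ∩ S` let `Y_H` be the block of `G, H`; `Y_H ∩ X = {H}`, `Y_H ∈ cross P S`, so by `h2` there is
`G_H ∈ Y_H \ S`, `G_H ≠ G`; it is not in `X` (else `G_H = H ∈ S`). `H ↦ G_H` is injective: if `G_H = G_{H'}` then `Y_H = Y_{H'}` (both contain `G ≠ G_H`),
so `H' ∈ Y_H ∩ X = {H}`. So `(univ \ S) \ X` contains `G` and the `G_H`.
(c) `t₁ ≥ t₀`: if `S ⊆ X` then `s₀ = |S| > |univ \ S| ≥ t₁`, contradicting (b). Otherwise let `G' ∈ S`, `G' ∉ X`; for `H ∈ X \ S` let `Y_H` be the block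
of `G', H`; `Y_H ∩ X = {H}`, there is `G_H ∈ Y_H \ S`, `G_H ≠ H`, so `G_H ∉ X`; injective as in (b).
So `θ s₀ + t₀ ≤ s₀ + t₀ ≤ (t₁ - 1) + t₁ < 2 t₁ ≤ 2 θ s₁ + 2 t₁`. -/
theorem stable_dom {n : ℕ} {P : Finset (Finset (Fin n))} (h : Sys P) (S : Finset (Fin n))
    (hS : (univ \ S).card < S.card) (hS' : (univ \ S).Nonempty)
    (h2 : ∀ X ∈ cross P S, 2 ≤ (X \ S).card) {θ : ℝ} (h0 : 0 < θ) (h1 : θ ≤ 1) :
    ∀ X ∈ P, 3 * (θ * (X ∩ S).card + (X \ S).card) < 2 * (θ * S.card + (univ \ S).card) := by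
  intro X hX
  have hSc : S.card = (X ∩ S).card + (S \ X).card := by
    have := Finset.card_inter_add_card_sdiff S X
    rw [Finset.inter_comm]
    omega
  have hOc : (univ \ S).card = (X \ S).card + ((univ \ S) \ X).card := by
    have h3 := Finset.card_inter_add_card_sdiff (univ \ S) X
    have h4 : (univ \ S) ∩ X = X \ S := by
      ext a
      simp only [mem_inter, mem_sdiff, mem_univ, true_and]
      tauto
    rw [h4] at h3
    omega
  -- (a)
  have ha : ((univ \ S) \ X).Nonempty := by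
    by_contra hc
    rw [Finset.not_nonempty_iff_eq_empty] at hc
    obtain ⟨H, hH⟩ := hS'
    have hHX : H ∈ X := by
      by_contra hHX
      have : H ∈ (univ \ S) \ X := mem_sdiff.2 ⟨hH, hHX⟩
      rw [hc] at this
      exact absurd this (Finset.notMem_empty H)
    obtain ⟨k, hk⟩ := h.proper X hX
    have hkS : k ∈ S := by
      by_contra hkS
      have : k ∈ (univ \ S) \ X := mem_sdiff.2 ⟨mem_sdiff.2 ⟨mem_univ k, hkS⟩, hk⟩
      rw [hc] at this
      exact absurd this (Finset.notMem_empty k)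
    have h3 := C3_inj h S h2 X hX k hk {H} (by simpa using hHX) (by
      intro H' hH'
      rw [mem_singleton] at hH'
      subst hH'
      exact ⟨fun _ => (mem_sdiff.1 hH).2, fun _ => hkS⟩)
    rw [hc] at h3
    simp at h3
  obtain ⟨G, hG⟩ := ha
  have hG' := mem_sdiff.1 hG
  have hGS := (mem_sdiff.1 hG'.1).2
  -- (b)
  have hb := C3_inj h S h2 X hX G hG'.2 (X ∩ S) inter_subset_left (by
    intro H hH
    have hHS := (mem_inter.1 hH).2
    exact ⟨fun hc => absurd hc hGS, fun hc => absurd hHS hc⟩)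
  rw [Finset.card_erase_of_mem hG] at hb
  have hpos : 0 < ((univ \ S) \ X).card := Finset.card_pos.2 ⟨G, hG⟩
  -- (c)
  have hne : (S \ X).Nonempty := by
    rw [← Finset.card_pos]
    omega
  obtain ⟨G', hG1⟩ := hne
  have hG2 := mem_sdiff.1 hG1
  have hc := C3_inj h S h2 X hX G' hG2.2 (X \ S) sdiff_subset (by
    intro H hH
    have hHS := (mem_sdiff.1 hH).2
    exact ⟨fun _ => hHS, fun _ => hG2.1⟩)
  have hc' := hc.trans (Finset.card_le_card (Finset.erase_subset _ _))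
  have e1 : ((X ∩ S).card : ℝ) + 1 ≤ ((univ \ S) \ X).card := by
    have : (X ∩ S).card + 1 ≤ ((univ \ S) \ X).card := by omega
    exact_mod_cast this
  have e2 : ((X \ S).card : ℝ) ≤ ((univ \ S) \ X).card := by exact_mod_cast hc'
  have e3 : (S.card : ℝ) = (X ∩ S).card + (S \ X).card := by exact_mod_cast hSc
  have e4 : ((univ \ S).card : ℝ) = (X \ S).card + ((univ \ S) \ X).card := by exact_mod_cast hOc
  have e5 : (0 : ℝ) ≤ (X ∩ S).card := by positivity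
  have e6 : (0 : ℝ) ≤ (S \ X).card := by positivity
  rw [e3, e4]
  have e7 : θ * (X ∩ S).card ≤ (X ∩ S).card := by nlinarith
  have e8 : 0 ≤ θ * (S \ X).card := by positivity
  nlinarith

end Pool.Agent.Lib.H64A
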