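import Pool.Agent.Lib.H64A.Defs

/-!
# H64A, chunk C6: the values on crossing blocks
-/

set_option autoImplicit false

namespace Pool.Agent.Lib.H64A

open Finset

variable {n p : ℕ} {P : Finset (Finset (Fin n))} {τ : Fin n → ZMod p} {S : Finset (Fin n)}

/-- **Chunk C6 (1).** `|X| τ i = |X| τ j` for `i ∈ X ∩ S`, `j ∈ X \ S`, and `τ i ≠ τ j`. -/
theorem cross_dvd (hp : p.Prime)
    (hL : ∀ X ∈ P, ∀ i ∈ X, (X.card : ZMod p) * τ i = ∑ j ∈ X, τ j)
    (hS : ∀ i j, τ i = τ j → (i ∈ S ↔ j ∈ S)) : ∀ X ∈ cross P S, p ∣ X.card := by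
  haveI := Fact.mk hp
  intro X hX
  unfold cross at hX
  rw [mem_filter] at hX
  obtain ⟨hXP, ⟨i, hi⟩, ⟨j, hj⟩⟩ := hX
  rw [mem_inter] at hi
  rw [mem_sdiff] at hj
  have h1 : (X.card : ZMod p) * (τ i - τ j) = 0 := by
    rw [mul_sub, hL X hXP i hi.1, hL X hXP j hj.1, sub_self]
  rcases mul_eq_zero.mp h1 with h | h
  · exact (ZMod.natCast_eq_zero_iff _ _).mp h
  · exact absurd ((hS i j (sub_eq_zero.mp h)).mp hi.2) hj.2

/-- **Chunk C6 (2).** The values outside of `S` sum to zero (`|X| = 0` in `ZMod p`, and `τ = 0` on `S`). -/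
theorem cross_sum (hp : p.Prime)
    (hL : ∀ X ∈ P, ∀ i ∈ X, (X.card : ZMod p) * τ i = ∑ j ∈ X, τ j)
    (hS : ∀ i, i ∈ S ↔ τ i = 0) : ∀ X ∈ cross P S, ∑ j ∈ X \ S, τ j = 0 := by
  intro X hX
  have h1 := cross_dvd hp hL (fun i j hij => by rw [hS, hS, hij]) X hX
  unfold cross at hX
  rw [mem_filter] at hX
  obtain ⟨hXP, ⟨i, hi⟩, -⟩ := hX
  rw [mem_inter] at hi
  have h2 : ∑ j ∈ X, τ j = 0 := by
    rw [← hL X hXP i hi.1, (ZMod.natCast_eq_zero_iff _ _).mpr h1, zero_mul]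
  rw [← Finset.sum_inter_add_sum_sdiff X S] at h2
  have h3 : ∑ j ∈ X ∩ S, τ j = 0 := by
    refine Finset.sum_eq_zero fun j hj => ?_
    rw [mem_inter] at hj
    exact (hS j).mp hj.2
  rwa [h3, zero_add] at h2

/-- **Chunk C6 (3).** One nonzero value does not sum to zero. -/
theorem cross_two (hp : p.Prime)
    (hL : ∀ X ∈ P, ∀ i ∈ X, (X.card : ZMod p) * τ i = ∑ j ∈ X, τ j)
    (hS : ∀ i, i ∈ S ↔ τ i = 0) : ∀ X ∈ cross P S, 2 ≤ (X \ S).card := by
  intro X hX
  have h1 := cross_sum hp hL hS X hX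
  unfold cross at hX
  rw [mem_filter] at hX
  obtain ⟨hXP, -, hne⟩ := hX
  have h2 : 0 < (X \ S).card := hne.card_pos
  by_contra hlt
  have h3 : (X \ S).card = 1 := by omega
  obtain ⟨j, hj⟩ := Finset.card_eq_one.mp h3
  rw [hj, Finset.sum_singleton] at h1
  have h4 : j ∈ X \ S := by rw [hj]; exact mem_singleton_self j
  rw [mem_sdiff] at h4
  exact h4.2 ((hS j).mpr h1)

private theorem c6_two_ne (hp : p.Prime) (h2 : 2 < p) {a : ZMod p} (h : a + a = 0) : a = 0 := by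
  haveI := Fact.mk hp
  have h3 : (2 : ZMod p) * a = 0 := by rw [two_mul]; exact h
  rcases mul_eq_zero.mp h3 with h4 | h4
  · exfalso
    have h5 : ((2 : ℕ) : ZMod p) = 0 := by exact_mod_cast h4
    have h6 := (ZMod.natCast_eq_zero_iff _ _).mp h5
    have h7 := Nat.le_of_dvd (by norm_num) h6
    omega
  · exact h4

/-- **Chunk C6 (4).** If `X \ S = {i, j}` then `τ i + τ j = 0`, `τ i ≠ τ j` (`p` is odd, `τ i ≠ 0`), so both ordered pairs are counted twice. -/
theorem bet_two (hp : p.Prime) (h2 : 2 < p)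
    (hL : ∀ X ∈ P, ∀ i ∈ X, (X.card : ZMod p) * τ i = ∑ j ∈ X, τ j)
    (hS : ∀ i, i ∈ S ↔ τ i = 0) : ∀ X ∈ cross P S, (X \ S).card = 2 → 4 ≤ bet τ S X := by
  intro X hX hc
  have h1 := cross_sum hp hL hS X hX
  obtain ⟨i, j, hij, hXS⟩ := Finset.card_eq_two.mp hc
  have hi : i ∈ X \ S := by rw [hXS]; simp
  have hj : j ∈ X \ S := by rw [hXS]; simp
  rw [hXS, Finset.sum_pair hij] at h1
  have hne : τ i ≠ τ j := by
    intro h
    rw [← h] at h1
    exact (mem_sdiff.mp hi).2 ((hS i).mpr (c6_two_ne hp h2 h1))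
  have hsub1 : ({(i, j), (j, i)} : Finset (Fin n × Fin n)) ⊆
      ((X \ S) ×ˢ (X \ S)).filter fun q => τ q.1 ≠ τ q.2 := by
    intro q hq
    rw [mem_insert, mem_singleton] at hq
    rw [mem_filter, mem_product]
    rcases hq with rfl | rfl
    · exact ⟨⟨hi, hj⟩, hne⟩
    · exact ⟨⟨hj, hi⟩, hne.symm⟩
  have hsub2 : ({(i, j), (j, i)} : Finset (Fin n × Fin n)) ⊆
      ((X \ S) ×ˢ (X \ S)).filter fun q => τ q.1 + τ q.2 = 0 := by
    intro q hq
    rw [mem_insert, mem_singleton] at hq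
    rw [mem_filter, mem_product]
    rcases hq with rfl | rfl
    · exact ⟨⟨hi, hj⟩, h1⟩
    · exact ⟨⟨hj, hi⟩, by rw [add_comm]; exact h1⟩
  have hcard : ({(i, j), (j, i)} : Finset (Fin n × Fin n)).card = 2 := by
    apply Finset.card_pair
    intro h
    exact hij (Prod.ext_iff.mp h).1
  have e1 := Finset.card_le_card hsub1
  have e2 := Finset.card_le_card hsub2
  rw [hcard] at e1 e2
  unfold bet
  omega

/-- **Chunk C6 (5).** The values on `X \ S` are not all equal: otherwise `|X \ S| τ i = 0` with `0 < |X \ S| < p`. If `A` is the set of the `j ∈ X \ S` with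
`τ j = τ i` for a fixed `i`, `1 ≤ |A| ≤ t - 1`, the first part of `bet` is at least `2 |A| (t - |A|) ≥ 2 (t - 1)`. -/
theorem bet_small (hp : p.Prime)
    (hL : ∀ X ∈ P, ∀ i ∈ X, (X.card : ZMod p) * τ i = ∑ j ∈ X, τ j)
    (hS : ∀ i, i ∈ S ↔ τ i = 0) :
    ∀ X ∈ cross P S, (X \ S).card < p → 2 * (X \ S).card - 2 ≤ bet τ S X := by
  haveI := Fact.mk hp
  intro X hX hlt
  have h1 := cross_sum hp hL hS X hX
  have h2 := cross_two hp hL hS X hX
  obtain ⟨i, hi⟩ : (X \ S).Nonempty := by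
    rw [← Finset.card_pos]; omega
  have hi0 : τ i ≠ 0 := fun h => (mem_sdiff.mp hi).2 ((hS i).mpr h)
  set A := (X \ S).filter fun j => τ j = τ i with hA
  set B := (X \ S).filter fun j => ¬ τ j = τ i with hB
  have hAB : A.card + B.card = (X \ S).card := Finset.card_filter_add_card_filter_not _
  have hiA : i ∈ A := by rw [hA, mem_filter]; exact ⟨hi, rfl⟩
  have hA1 : 1 ≤ A.card := Finset.card_pos.mpr ⟨i, hiA⟩
  have hB1 : 1 ≤ B.card := by
    by_contra hB0
    have hB2 : B = ∅ := Finset.card_eq_zero.mp (by omega)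
    have hall : ∀ j ∈ X \ S, τ j = τ i := by
      intro j hj
      by_contra hne
      have : j ∈ B := by rw [hB, mem_filter]; exact ⟨hj, hne⟩
      rw [hB2] at this
      exact absurd this (Finset.notMem_empty j)
    rw [Finset.sum_congr rfl hall, Finset.sum_const, nsmul_eq_mul] at h1
    rcases mul_eq_zero.mp h1 with h | h
    · have h3 := (ZMod.natCast_eq_zero_iff _ _).mp h
      have h4 := Nat.le_of_dvd (by omega) h3
      omega
    · exact hi0 h
  have hdisj : Disjoint (A ×ˢ B) (B ×ˢ A) := by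
    rw [Finset.disjoint_left]
    intro q hq hq'
    rw [mem_product] at hq hq'
    have h3 : τ q.1 = τ i := (mem_filter.mp hq.1).2
    exact (mem_filter.mp hq'.1).2 h3
  have hsub : (A ×ˢ B) ∪ (B ×ˢ A) ⊆ ((X \ S) ×ˢ (X \ S)).filter fun q => τ q.1 ≠ τ q.2 := by
    intro q hq
    rw [mem_union, mem_product, mem_product] at hq
    rw [mem_filter, mem_product]
    rcases hq with ⟨ha, hb⟩ | ⟨hb, ha⟩
    · have ha' := mem_filter.mp ha
      have hb' := mem_filter.mp hb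
      exact ⟨⟨ha'.1, hb'.1⟩, fun h => hb'.2 (h ▸ ha'.2)⟩
    · have ha' := mem_filter.mp ha
      have hb' := mem_filter.mp hb
      exact ⟨⟨hb'.1, ha'.1⟩, fun h => hb'.2 (h.trans ha'.2)⟩
  have hcard := Finset.card_le_card hsub
  rw [Finset.card_union_of_disjoint hdisj, Finset.card_product, Finset.card_product] at hcard
  have hprod : A.card + B.card ≤ A.card * B.card + 1 := by
    obtain ⟨a, ha⟩ := Nat.exists_eq_add_of_le hA1
    obtain ⟨b, hb⟩ := Nat.exists_eq_add_of_le hB1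
    rw [ha, hb]
    have : (1 + a) * (1 + b) = 1 + a + b + a * b := by ring
    rw [this]
    have h0 := Nat.zero_le (a * b)
    omega
  have hcomm : B.card * A.card = A.card * B.card := Nat.mul_comm _ _
  unfold bet
  omega

end Pool.Agent.Lib.H64A
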