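import Pool.Agent.Lib.H64A.Defs

/-!
# H64A, chunk C7: the budget
-/

set_option autoImplicit false

namespace Pool.Agent.Lib.H64A

open Finset

private theorem c7_sub {n : ℕ} {P : Finset (Finset (Fin n))} (h : Sys P) (S : Finset (Fin n))
    (f : Fin n × Fin n → Prop) [DecidablePred f] (hf : ∀ i, i ∉ S → ¬ f (i, i)) :
    ∑ X ∈ cross P S, (((X \ S) ×ˢ (X \ S)).filter f).card ≤
      (((univ \ S) ×ˢ (univ \ S)).filter f).card := by
  rw [← Finset.card_biUnion]
  · apply Finset.card_le_card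
    intro q hq
    rw [mem_biUnion] at hq
    obtain ⟨X, hX, hq⟩ := hq
    rw [mem_filter, mem_product, mem_sdiff, mem_sdiff] at hq
    rw [mem_filter, mem_product, mem_sdiff, mem_sdiff]
    exact ⟨⟨⟨mem_univ _, hq.1.1.2⟩, ⟨mem_univ _, hq.1.2.2⟩⟩, hq.2⟩
  · intro X hX Y hY hXY
    change Disjoint (((X \ S) ×ˢ (X \ S)).filter f) (((Y \ S) ×ˢ (Y \ S)).filter f)
    rw [Finset.disjoint_left]
    intro q hq hq'
    rw [mem_filter, mem_product, mem_sdiff, mem_sdiff] at hq hq'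
    have hX' : X ∈ P := (mem_filter.mp hX).1
    have hY' : Y ∈ P := (mem_filter.mp hY).1
    have hne : q.1 ≠ q.2 := by
      intro he
      apply hf q.1 hq.1.1.2
      have : (q.1, q.1) = q := Prod.ext rfl he
      rw [this]
      exact hq.2
    exact hXY (h.uniq X hX' Y hY' q.1 q.2 hne hq.1.1.1 hq.1.2.1 hq'.1.1.1 hq'.1.2.1)

/-- **Chunk C7.** The sum of the budgets is at most the square of the number of elements outside of `S`.

Proof. Let `R = univ \ S`. A pair `(i, j) ∈ R × R` with `τ i ≠ τ j`, or with `τ i + τ j = 0` (then `τ i ≠ τ j` since `p` is odd and `τ i ≠ 0`), has `i ≠ j`, so it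
is in at most one block (`Sys.uniq`). So the sum is at most `E + U`, `E = #{(i, j) ∈ R² | τ i ≠ τ j}`, `U = #{(i, j) ∈ R² | τ i + τ j = 0}`.
`E = |R|² - #{τ i = τ j}`, and with `n_x = #{i ∈ R | τ i = x}`: `U = ∑_x n_x n_{-x} ≤ ∑_x n_x² = #{τ i = τ j}` (`2 n_x n_{-x} ≤ n_x² + n_{-x}²`). -/
theorem budget {n p : ℕ} {P : Finset (Finset (Fin n))} (h : Sys P) (hp : p.Prime) (h2 : 2 < p)
    (τ : Fin n → ZMod p) (S : Finset (Fin n)) (hS : ∀ i, i ∉ S → τ i ≠ 0) :
    ∑ X ∈ cross P S, bet τ S X ≤ (univ \ S).card ^ 2 := by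
  have : Fact p.Prime := ⟨hp⟩
  have : NeZero p := ⟨hp.ne_zero⟩
  set R : Finset (Fin n) := univ \ S with hR
  have hE := c7_sub h S (fun q => τ q.1 ≠ τ q.2) (fun i _ hi => hi rfl)
  have hU := c7_sub h S (fun q => τ q.1 + τ q.2 = 0) (by
    intro i hi h0
    have h3 : (2 : ZMod p) * τ i = 0 := by rw [two_mul]; exact h0
    rcases mul_eq_zero.mp h3 with h4 | h4
    · have h5 : ((2 : ℕ) : ZMod p) = 0 := by exact_mod_cast h4
      have h6 := (ZMod.natCast_eq_zero_iff _ _).mp h5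
      have h7 := Nat.le_of_dvd (by norm_num) h6
      omega
    · exact hS i hi h4)
  -- number of pairs
  have hsplit : ((R ×ˢ R).filter fun q => τ q.1 = τ q.2).card +
      ((R ×ˢ R).filter fun q => ¬ τ q.1 = τ q.2).card = R.card ^ 2 := by
    rw [Finset.card_filter_add_card_filter_not, Finset.card_product, sq]
  -- fibres
  let N : ZMod p → ℕ := fun x => (R.filter fun i => τ i = x).card
  have hEq : ((R ×ˢ R).filter fun q => τ q.1 = τ q.2).card = ∑ x : ZMod p, N x * N x := by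
    rw [Finset.card_eq_sum_card_fiberwise (f := fun q => τ q.1) (t := univ)
      (fun _ _ => mem_coe.mpr (mem_univ _))]
    refine Finset.sum_congr rfl fun x _ => ?_
    rw [← Finset.card_product]
    congr 1
    ext q
    simp only [mem_filter, mem_product]
    constructor
    · rintro ⟨⟨⟨h1, h2⟩, h3⟩, h4⟩
      exact ⟨⟨h1, h4⟩, ⟨h2, h3 ▸ h4⟩⟩
    · rintro ⟨⟨h1, h2⟩, ⟨h3, h4⟩⟩
      exact ⟨⟨⟨h1, h3⟩, h2.trans h4.symm⟩, h2⟩
  have hUq : ((R ×ˢ R).filter fun q => τ q.1 + τ q.2 = 0).card = ∑ x : ZMod p, N x * N (-x) := by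
    rw [Finset.card_eq_sum_card_fiberwise (f := fun q => τ q.1) (t := univ)
      (fun _ _ => mem_coe.mpr (mem_univ _))]
    refine Finset.sum_congr rfl fun x _ => ?_
    rw [← Finset.card_product]
    congr 1
    ext q
    simp only [mem_filter, mem_product]
    constructor
    · rintro ⟨⟨⟨h1, h2⟩, h3⟩, h4⟩
      refine ⟨⟨h1, h4⟩, ⟨h2, ?_⟩⟩
      rw [h4] at h3
      exact (neg_eq_of_add_eq_zero_right h3).symm
    · rintro ⟨⟨h1, h2⟩, ⟨h3, h4⟩⟩
      refine ⟨⟨⟨h1, h3⟩, ?_⟩, h2⟩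
      rw [h2, h4, add_neg_cancel]
  have hneg : ∑ x : ZMod p, N (-x) * N (-x) = ∑ x : ZMod p, N x * N x :=
    Fintype.sum_equiv (Equiv.neg _) _ _ fun x => rfl
  have hle : 2 * ∑ x : ZMod p, N x * N (-x) ≤ 2 * ∑ x : ZMod p, N x * N x := by
    calc 2 * ∑ x : ZMod p, N x * N (-x) = ∑ x : ZMod p, 2 * (N x * N (-x)) := by
          rw [Finset.mul_sum]
      _ ≤ ∑ x : ZMod p, (N x * N x + N (-x) * N (-x)) := by
          refine Finset.sum_le_sum fun x _ => ?_
          have := two_mul_le_add_sq (N x) (N (-x))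
          nlinarith
      _ = 2 * ∑ x : ZMod p, N x * N x := by
          rw [Finset.sum_add_distrib, hneg, two_mul]
  have hsum : ∑ X ∈ cross P S, bet τ S X ≤
      ((R ×ˢ R).filter fun q => ¬ τ q.1 = τ q.2).card +
        ((R ×ˢ R).filter fun q => τ q.1 + τ q.2 = 0).card := by
    unfold bet
    rw [Finset.sum_add_distrib]
    exact add_le_add hE hU
  omega

end Pool.Agent.Lib.H64A
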