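import Mathlib

/-!
# H64A, chunk C8: elementary inequalities
-/

set_option autoImplicit false

namespace Pool.Agent.Lib.H64A

/-- **Chunk C8 (1).** Balanced case.

`s, t ≥ 3`: the discriminant `(4/9) s² t² - 4 s t (s - 2)(t - 2) ≤ 0` since `9 (s - 2)(t - 2) ≥ s t`. `t = 2`, `s ≥ 5`: `θ s (θ (s - 2) - 4/3) ≥ 0`.
`t = 1`, `s ≥ 6`: `θ² s (s - 2) - 1 - (2/3) θ s ≥ 0`. `s = 2`, `t ≥ 5`: `t (t - 2 - (4/3) θ) ≥ 0`. `s = 1`, `t ≥ 6`:
`t (t - 2) - θ² - (2/3) θ t ≥ 0`. -/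
theorem bal_ineq {θ : ℝ} (h1 : 4 / 9 ≤ θ) (h2 : θ ≤ 1) {s t : ℕ} (hs : 1 ≤ s) (ht : 1 ≤ t)
    (hst : 7 ≤ s + t) :
    2 / 3 * θ * s * t ≤ θ ^ 2 * s * (s - 2) + t * (t - 2) := by
  have h0 : 0 < θ := by linarith
  have hθ2 : θ ^ 2 ≤ 1 := by nlinarith
  rcases Nat.lt_or_ge s 3 with hs3 | hs3
  · have hs' : s = 1 ∨ s = 2 := by omega
    rcases hs' with rfl | rfl
    · have ht6 : (6 : ℝ) ≤ t := by exact_mod_cast (by omega : 6 ≤ t)
      push_cast
      nlinarith [mul_nonneg (sub_nonneg.2 h2) (by linarith : (0 : ℝ) ≤ t), sq_nonneg ((t : ℝ) - 6)]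
    · have ht5 : (5 : ℝ) ≤ t := by exact_mod_cast (by omega : 5 ≤ t)
      push_cast
      nlinarith [mul_nonneg (sub_nonneg.2 h2) (by linarith : (0 : ℝ) ≤ t)]
  · rcases Nat.lt_or_ge t 3 with ht3 | ht3
    · have ht' : t = 1 ∨ t = 2 := by omega
      rcases ht' with rfl | rfl
      · have hs6 : (6 : ℝ) ≤ s := by exact_mod_cast (by omega : 6 ≤ s)
        have g1 : 8 / 3 ≤ θ * s := by nlinarith
        have g2 : 16 / 9 ≤ θ * (s - 2) := by nlinarith
        push_cast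
        nlinarith [mul_nonneg (sub_nonneg.2 g1) (sub_nonneg.2 g2)]
      · have hs5 : (5 : ℝ) ≤ s := by exact_mod_cast (by omega : 5 ≤ s)
        have g1 : 0 ≤ θ * s := by positivity
        have g2 : 4 / 3 ≤ θ * (s - 2) := by nlinarith
        push_cast
        nlinarith [mul_nonneg g1 (sub_nonneg.2 g2)]
    · have hS : (3 : ℝ) ≤ s := by exact_mod_cast hs3
      have hT : (3 : ℝ) ≤ t := by exact_mod_cast ht3
      generalize (s : ℝ) = S at *
      generalize (t : ℝ) = T at *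
      have g1 : 0 < S * (S - 2) := by nlinarith
      have g2 : S * T / 9 ≤ (S - 2) * (T - 2) := by
        nlinarith [mul_nonneg (sub_nonneg.2 hS) (sub_nonneg.2 hT)]
      have g3 : 0 ≤ S * T := by positivity
      have g4 : 0 ≤ S * (S - 2) * (θ ^ 2 * S * (S - 2) + T * (T - 2) - 2 / 3 * θ * S * T) := by
        have : S * (S - 2) * (θ ^ 2 * S * (S - 2) + T * (T - 2) - 2 / 3 * θ * S * T) =
            (S * (S - 2) * θ - S * T / 3) ^ 2 + S * T * ((S - 2) * (T - 2) - S * T / 9) := by ring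
        rw [this]
        have := mul_nonneg g3 (sub_nonneg.2 g2)
        positivity
      have g5 : 0 ≤ θ ^ 2 * S * (S - 2) + T * (T - 2) - 2 / 3 * θ * S * T :=
        nonneg_of_mul_nonneg_right g4 g1
      linarith

/-- **Chunk C8 (2).** First certificate. With `σ = θ s`: `σ² - (2 θ + (34/25) t) σ + t² - 2 t + (41/50) β ≥ t² - 2 t + (41/50) β - (θ + (17/25) t)²`,
which is positive: `t = 2`: `β ≥ 4`; `t = 3, ..., 6`: `β ≥ 2 t - 2`; `t ≥ 7`: `β ≥ 0` (with `θ ≤ 56/125`). -/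
theorem cert_one {θ : ℝ} (h1 : 0 ≤ θ) (h2 : θ ≤ 56 / 125) {s t b : ℕ} (ht : 2 ≤ t)
    (hb2 : t = 2 → 4 ≤ b) (hb : t ≤ 6 → 2 * t - 2 ≤ b) :
    34 / 25 * θ * s * t - 41 / 50 * b ≤ θ ^ 2 * s * (s - 2) + t * (t - 2) := by
  have hK : (θ + 17 / 25 * t) ^ 2 ≤ t ^ 2 - 2 * t + 41 / 50 * b := by
    have g1 : (θ + 17 / 25 * t) ^ 2 ≤ (56 / 125 + 17 / 25 * t) ^ 2 :=
      pow_le_pow_left₀ (by positivity) (by linarith) 2
    refine g1.trans ?_
    have hb0 : (0 : ℝ) ≤ b := Nat.cast_nonneg _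
    rcases Nat.lt_or_ge t 7 with h7 | h7
    · have hb' := hb (by omega)
      interval_cases t
      · have : (4 : ℝ) ≤ b := by exact_mod_cast hb2 rfl
        norm_num
        linarith
      · have : (4 : ℝ) ≤ b := by exact_mod_cast hb'
        norm_num
        linarith
      · have : (6 : ℝ) ≤ b := by exact_mod_cast hb'
        norm_num
        linarith
      · have : (8 : ℝ) ≤ b := by exact_mod_cast hb'
        norm_num
        linarith
      · have : (10 : ℝ) ≤ b := by exact_mod_cast hb'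
        norm_num
        linarith
    · have : (7 : ℝ) ≤ t := by exact_mod_cast h7
      nlinarith
  nlinarith [sq_nonneg (θ * s - θ - 17 / 25 * t)]

/-- **Chunk C8 (3).** Second certificate. `t = 2`, `s ≥ 5`: `2 (s - 2)(s - 5) ≥ 0`. `t = 3`, `s ≥ 4`, `s ≠ 5` (as `8` has no prime factor `≥ 7`):
`2 s² - 19 s + 44 ≥ 0`. `t = 4`: `2 s² - 24 s + 94 > 0`. `t ≥ 5`: `2 s² - (4 + 5 t) s + 8 t² - 16 t` has negative discriminant
`16 + 168 t - 39 t²`. -/
theorem cert_two {p : ℕ} (hp : p.Prime) (h7 : 7 ≤ p) {s t b : ℕ} (hs : 1 ≤ s) (ht : 2 ≤ t)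
    (hd : p ∣ s + t) (hb2 : t = 2 → 4 ≤ b) (hb : t ≤ 6 → 2 * t - 2 ≤ b) :
    5 * (s : ℝ) * t - 5 * b ≤ 2 * s * (s - 2) + 8 * (t * (t - 2)) := by
  have hst : 7 ≤ s + t := h7.trans (Nat.le_of_dvd (by omega) hd)
  have hb0 : (0 : ℝ) ≤ b := Nat.cast_nonneg _
  rcases Nat.lt_or_ge t 7 with ht7 | ht7
  · have hb' := hb (by omega)
    interval_cases t
    · have h4 : (4 : ℝ) ≤ b := by exact_mod_cast hb2 rfl
      have h5 : (5 : ℝ) ≤ s := by exact_mod_cast (by omega : 5 ≤ s)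
      push_cast
      nlinarith [mul_nonneg (by linarith : (0 : ℝ) ≤ (s : ℝ) - 2) (sub_nonneg.2 h5)]
    · have h4 : (4 : ℝ) ≤ b := by exact_mod_cast hb'
      push_cast
      have hs4 : 4 ≤ s := by omega
      have hs5 : s ≠ 5 := by
        rintro rfl
        have h9 : p ≤ 8 := Nat.le_of_dvd (by norm_num) hd
        have h10 : p = 7 ∨ p = 8 := by omega
        rcases h10 with rfl | rfl
        · omega
        · exact absurd hp (by norm_num)
      have hs46 : s = 4 ∨ 6 ≤ s := by omega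
      rcases hs46 with rfl | h6
      · push_cast
        linarith
      · have h6' : (6 : ℝ) ≤ s := by exact_mod_cast h6
        nlinarith [mul_nonneg (by linarith : (0 : ℝ) ≤ (s : ℝ) - 4) (by linarith : (0 : ℝ) ≤ 2 * (s : ℝ) - 11)]
    · have h4 : (6 : ℝ) ≤ b := by exact_mod_cast hb'
      push_cast
      nlinarith [sq_nonneg ((s : ℝ) - 6)]
    · have h4 : (8 : ℝ) ≤ b := by exact_mod_cast hb'
      push_cast
      nlinarith [sq_nonneg (4 * (s : ℝ) - 29)]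
    · have h4 : (10 : ℝ) ≤ b := by exact_mod_cast hb'
      push_cast
      nlinarith [sq_nonneg (2 * (s : ℝ) - 17)]
  · have h7' : (7 : ℝ) ≤ t := by exact_mod_cast ht7
    nlinarith [sq_nonneg (4 * (s : ℝ) - (4 + 5 * t))]

end Pool.Agent.Lib.H64A
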