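import Pool.Agent.Lib.H64A.C1
import Pool.Agent.Lib.H64A.C2
import Pool.Agent.Lib.H64A.C3
import Pool.Agent.Lib.H64A.C6
import Pool.Agent.Lib.H64A.C7
import Pool.Agent.Lib.H64A.C8

/-!
# H64A, chunk C9: the dominant case
-/

set_option autoImplicit false

namespace Pool.Agent.Lib.H64A

open Finset

/-- **Chunk C9.** There is no dominant class `S = {τ = 0}` with more than `9/4` times as many elements as its complement.

Proof. `a = |S|`, `b = |univ \ S| > 0`, `9 b < 4 a`. There is a crossing block `X`, so `b ≥ |X \ S| ≥ 2` (`cross_two`), hence `a ≥ 5`. For a crossing block let `s = |X ∩ S| ≥ 1`,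
`t = |X \ S| ≥ 2`, `β = bet τ S X`: `p ∣ s + t` (`cross_dvd`), `t = 2 → 4 ≤ β` (`bet_two`), `t ≤ 6 → 2 t - 2 ≤ β` (`bet_small`, `t ≤ 6 < p`).
`∑ s t = a b` (`cross_count`), `∑ β ≤ b²` (`budget`). For `0 < θ ≤ 1` with `θ a + b > 3`: `energy_two`, `stable_dom` give
`∑ ((θ² s (s - 2) + t (t - 2))/2 + θ s t) ≤ (θ a + b)²/3 - θ² a - b`, i.e.
(*) `∑ (θ² s (s - 2) + t (t - 2)) < (2/3) (θ² a² - θ a b + b²)`.

Case 1: `25 b ≤ 7 a`. `θ = (8/5) b / a ≤ 56/125`; `θ a + b = (13/5) b > 3`. `cert_one`, summed: left side of (*) `≥ (34/25) θ a b - (41/50) b² = (2.176 - 0.82) b² = 1.356 b²`;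
right side `(2/3)(64/25 - 8/5 + 1) b² = (2/3) 1.96 b² < 1.3067 b²`. Contradiction.
Case 2: `7 a < 25 b`. `θ = 1/2`; `a/2 + b > 3`. `cert_two` multiplied by `1/8`, summed: left side `≥ (5/8) (a b - b²)`; right side
`(2/3)(a²/4 - a b/2 + b²)`; so `15 (a b - b²) < 4 a² - 8 a b + 16 b²`, i.e. `4 a² - 23 a b + 31 b² > 0`; but with `r = b/a ∈ (7/25, 4/9)`:
`31 r² - 23 r + 4 < 0` (at `7/25`: `-0.0096`, at `4/9`: `-0.098`, convex). Contradiction. -/
theorem dominant {n p : ℕ} {P : Finset (Finset (Fin n))} (h : Sys P) (hp : p.Prime) (h7 : 7 ≤ p)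
    (τ : Fin n → ZMod p)
    (hL : ∀ X ∈ P, ∀ i ∈ X, (X.card : ZMod p) * τ i = ∑ j ∈ X, τ j) (S : Finset (Fin n))
    (hS : ∀ i, i ∈ S ↔ τ i = 0) (hab : 9 * (univ \ S).card < 4 * S.card)
    (h0 : 0 < (univ \ S).card) : False := by
  have hS3 : ∀ i j, τ i = τ j → (i ∈ S ↔ j ∈ S) := by
    intro i j hij
    rw [hS i, hS j, hij]
  have ha0 : 0 < S.card := by omega
  obtain ⟨i0, hi0⟩ := Finset.card_pos.1 ha0
  obtain ⟨j0, hj0⟩ := Finset.card_pos.1 h0
  have hj0' : j0 ∉ S := (Finset.mem_sdiff.1 hj0).2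
  have hij : i0 ≠ j0 := fun hh => hj0' (hh ▸ hi0)
  obtain ⟨X0, hX0, hiX, hjX⟩ := h.pair i0 j0 hij
  have hX0c : X0 ∈ cross P S := by
    refine Finset.mem_filter.2 ⟨hX0, ⟨i0, Finset.mem_inter.2 ⟨hiX, hi0⟩⟩,
      ⟨j0, Finset.mem_sdiff.2 ⟨hjX, hj0'⟩⟩⟩
  have htwo := cross_two hp hL hS
  have hb2 : 2 ≤ (univ \ S).card :=
    (htwo X0 hX0c).trans (Finset.card_le_card (Finset.sdiff_subset_sdiff (Finset.subset_univ _)
      (Finset.Subset.refl _)))
  have ha5 : 5 ≤ S.card := by omega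
  have hlt : (univ \ S).card < S.card := by omega
  have h2p : 2 < p := by omega
  have hcount := cross_count h S
  have hbudget := budget h hp h2p τ S (fun i hi hh => hi ((hS i).2 hh))
  have hcountR : ∑ X ∈ cross P S, (((X ∩ S).card : ℝ) * ((X \ S).card : ℝ)) =
      (S.card : ℝ) * ((univ \ S).card : ℝ) := by
    exact_mod_cast hcount
  have hbudgetR : ∑ X ∈ cross P S, (bet τ S X : ℝ) ≤ ((univ \ S).card : ℝ) ^ 2 := by
    exact_mod_cast hbudget
  have hspos : ∀ X ∈ cross P S, 1 ≤ (X ∩ S).card := fun X hX =>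
    Finset.card_pos.2 (Finset.mem_filter.1 hX).2.1
  have hsplit : ∀ X : Finset (Fin n), (X ∩ S).card + (X \ S).card = X.card := fun X =>
    Finset.card_inter_add_card_sdiff X S
  have hbs : ∀ X ∈ cross P S, (X \ S).card ≤ 6 → 2 * (X \ S).card - 2 ≤ bet τ S X :=
    fun X hX ht => bet_small hp hL hS X hX (by omega)
  have hbt := bet_two hp h2p hL hS
  set a : ℝ := (S.card : ℝ) with ha
  set b : ℝ := ((univ \ S).card : ℝ) with hb
  have haR : (5 : ℝ) ≤ a := by rw [ha]; exact_mod_cast ha5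
  have hbR : (2 : ℝ) ≤ b := by rw [hb]; exact_mod_cast hb2
  have habR : 9 * b < 4 * a := by rw [ha, hb]; exact_mod_cast hab
  have key : ∀ θ : ℝ, 0 < θ → θ ≤ 1 → 3 < θ * a + b →
      ∑ X ∈ cross P S, (θ ^ 2 * ((X ∩ S).card : ℝ) * (((X ∩ S).card : ℝ) - 2) +
        ((X \ S).card : ℝ) * (((X \ S).card : ℝ) - 2)) <
      2 / 3 * (θ ^ 2 * a ^ 2 - θ * a * b + b ^ 2) := by
    intro θ hθ0 hθ1 h3
    have g1 := energy_two h S hθ0 h3 (by linarith)
      (stable_dom h S hlt (Finset.card_pos.1 h0) htwo hθ0 hθ1)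
    have g2 : ∑ X ∈ cross P S, (θ ^ 2 * ((X ∩ S).card : ℝ) * (((X ∩ S).card : ℝ) - 2) +
        ((X \ S).card : ℝ) * (((X \ S).card : ℝ) - 2)) =
        2 * ∑ X ∈ cross P S, ((θ * (X ∩ S).card + (X \ S).card) ^ 2 / 2 - θ ^ 2 * (X ∩ S).card
        - (X \ S).card) - 2 * θ * ∑ X ∈ cross P S, (((X ∩ S).card : ℝ) * ((X \ S).card : ℝ)) := by
      rw [Finset.mul_sum, Finset.mul_sum, ← Finset.sum_sub_distrib]
      refine Finset.sum_congr rfl fun X _ => ?_
      ring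
    rw [g2, hcountR]
    have g3 : 0 < θ ^ 2 * a := by positivity
    nlinarith [g1, g3]
  rcases le_or_gt (25 * b) (7 * a) with hc | hc
  · have hapos : (0 : ℝ) < a := by linarith
    have hθa : 8 / 5 * b / a * a = 8 / 5 * b := div_mul_cancel₀ _ hapos.ne'
    have hθ0 : 0 < 8 / 5 * b / a := by positivity
    have hθ1 : 8 / 5 * b / a ≤ 56 / 125 := by
      rw [div_le_iff₀ hapos]
      linarith
    set θ : ℝ := 8 / 5 * b / a with hθ
    have k1 := key θ hθ0 (by linarith) (by rw [hθa]; linarith)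
    have k2 : ∑ X ∈ cross P S, (34 / 25 * θ * ((X ∩ S).card : ℝ) * ((X \ S).card : ℝ) -
        41 / 50 * (bet τ S X : ℝ)) ≤
        ∑ X ∈ cross P S, (θ ^ 2 * ((X ∩ S).card : ℝ) * (((X ∩ S).card : ℝ) - 2) +
        ((X \ S).card : ℝ) * (((X \ S).card : ℝ) - 2)) := by
      refine Finset.sum_le_sum fun X hX => ?_
      exact cert_one hθ0.le hθ1 (htwo X hX) (hbt X hX) (hbs X hX)
    have k3 : ∑ X ∈ cross P S, (34 / 25 * θ * ((X ∩ S).card : ℝ) * ((X \ S).card : ℝ) -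
        41 / 50 * (bet τ S X : ℝ)) = 34 / 25 * θ * (a * b) -
        41 / 50 * ∑ X ∈ cross P S, (bet τ S X : ℝ) := by
      rw [← hcountR, Finset.mul_sum, Finset.mul_sum, ← Finset.sum_sub_distrib]
      refine Finset.sum_congr rfl fun X _ => ?_
      ring
    have k4 : 34 / 25 * θ * (a * b) = 34 / 25 * (8 / 5 * b) * b := by
      rw [← hθa]
      ring
    have k5 : θ ^ 2 * a ^ 2 - θ * a * b + b ^ 2 = (8 / 5 * b) ^ 2 - 8 / 5 * b * b + b ^ 2 := by
      rw [← hθa]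
      ring
    rw [k5] at k1
    rw [k3, k4] at k2
    nlinarith [k1, k2, hbudgetR, mul_pos (show (0 : ℝ) < b by linarith) (show (0 : ℝ) < b by linarith)]
  · have k1 := key (1 / 2) (by norm_num) (by norm_num) (by linarith)
    have k2 : ∑ X ∈ cross P S, (5 * ((X ∩ S).card : ℝ) * ((X \ S).card : ℝ) -
        5 * (bet τ S X : ℝ)) ≤
        8 * ∑ X ∈ cross P S, ((1 / 2 : ℝ) ^ 2 * ((X ∩ S).card : ℝ) * (((X ∩ S).card : ℝ) - 2) +
        ((X \ S).card : ℝ) * (((X \ S).card : ℝ) - 2)) := by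
      rw [Finset.mul_sum]
      refine Finset.sum_le_sum fun X hX => ?_
      have hd : p ∣ (X ∩ S).card + (X \ S).card := by
        rw [hsplit]
        exact cross_dvd hp hL hS3 X hX
      have g := cert_two hp h7 (hspos X hX) (htwo X hX) hd (hbt X hX) (hbs X hX)
      refine g.trans (le_of_eq ?_)
      ring
    have k3 : ∑ X ∈ cross P S, (5 * ((X ∩ S).card : ℝ) * ((X \ S).card : ℝ) -
        5 * (bet τ S X : ℝ)) = 5 * (a * b) - 5 * ∑ X ∈ cross P S, (bet τ S X : ℝ) := by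
      rw [← hcountR, Finset.mul_sum, Finset.mul_sum, ← Finset.sum_sub_distrib]
      refine Finset.sum_congr rfl fun X _ => ?_
      ring
    rw [k3] at k2
    have k6 : 0 < 4 * a ^ 2 - 23 * (a * b) + 31 * b ^ 2 := by nlinarith [k1, k2, hbudgetR]
    have k7 : 0 < (25 * b - 7 * a) * (4 * a - 9 * b) := mul_pos (by linarith) (by linarith)
    have k8 : 0 < a * (25 * b - 7 * a) := mul_pos (by linarith) (by linarith)
    have k9 : 0 < a * b := mul_pos (by linarith) (by linarith)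
    nlinarith [k6, k7, k8, k9]

end Pool.Agent.Lib.H64A
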