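import Pool.Agent.Lib.H64A.C5
import Pool.Agent.Lib.H64A.C9
import Pool.Agent.Lib.H64A.C10

/-!
# H64A, chunk C11: the combinatorial theorem
-/

set_option autoImplicit false

namespace Pool.Agent.Lib.H64A

open Finset

/-- **Chunk C11.** `split`; in the first case apply `dominant` to `τ - a` (the hypothesis `hL` is invariant under adding constants) unless `τ` is constant
(`univ \ S` empty); in the second case `balanced`, since crossing blocks have at least seven elements: `cross_dvd` and `|X| > 0`, `7 ≤ p`
(`(univ \ S).card > 0` because `n > 0` and `4 |S| ≤ 9 |univ \ S|`). -/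
theorem comb {n p : ℕ} {P : Finset (Finset (Fin n))} (h : Sys P) (hp : p.Prime) (h7 : 7 ≤ p)
    (τ : Fin n → ZMod p)
    (hL : ∀ X ∈ P, ∀ i ∈ X, (X.card : ZMod p) * τ i = ∑ j ∈ X, τ j) :
    ∀ i j, τ i = τ j := by
  intro i j
  have hn : 0 < n := lt_of_le_of_lt (Nat.zero_le _) i.2
  have : NeZero p := ⟨by omega⟩
  rcases split hn τ with ⟨a, ha⟩ | ⟨S, hS, hb, ha⟩
  · set S : Finset (Fin n) := univ.filter fun i => τ i = a with hSd
    rcases Nat.eq_zero_or_pos (univ \ S).card with h0 | h0
    · have h1 : ∀ k, τ k = a := by
        intro k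
        by_contra hcon
        have h2 : k ∈ univ \ S := by
          rw [Finset.mem_sdiff, hSd, Finset.mem_filter]
          exact ⟨Finset.mem_univ _, fun hc => hcon hc.2⟩
        rw [Finset.card_eq_zero] at h0
        rw [h0] at h2
        exact absurd h2 (Finset.notMem_empty _)
      rw [h1, h1]
    · exfalso
      refine dominant h hp h7 (fun k => τ k - a) (fun X hX k hk => ?_) S (fun k => ?_) ha h0
      · rw [mul_sub, hL X hX k hk, Finset.sum_sub_distrib, Finset.sum_const, nsmul_eq_mul]
      · rw [hSd, Finset.mem_filter, sub_eq_zero]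
        simp
  · exfalso
    have h0 : 0 < (univ \ S).card := by
      by_contra hcon
      have hc : S.card + (univ \ S).card = n := by
        have := Finset.card_sdiff_add_card_eq_card (Finset.subset_univ S)
        rw [Finset.card_univ, Fintype.card_fin] at this
        omega
      omega
    refine balanced h S (fun X hX => ?_) hb ha h0
    have h1 := cross_dvd hp hL hS X hX
    have h2 : 0 < X.card := by
      obtain ⟨k, hk⟩ := ((Finset.mem_filter.1 hX).2).1
      exact Finset.card_pos.2 ⟨k, (Finset.mem_inter.1 hk).1⟩
    exact h7.trans (Nat.le_of_dvd h2 h1)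

end Pool.Agent.Lib.H64A
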