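import Pool.Agent.Lib.H64A.Defs

/-!
# H64A, chunk C4: stability, balanced case
-/

set_option autoImplicit false

namespace Pool.Agent.Lib.H64A

open Finset

private theorem c4_count {n : ℕ} {P : Finset (Finset (Fin n))} (h : Sys P) (S : Finset (Fin n))
    (h7 : ∀ X ∈ cross P S, 7 ≤ X.card) (X : Finset (Fin n)) (hX : X ∈ P) (G : Fin n) (hG : G ∉ X)
    (Hs : Finset (Fin n)) (hH : Hs ⊆ X) (hside : ∀ H ∈ Hs, (H ∈ S ↔ G ∉ S)) :
    1 + 5 * Hs.card ≤ (univ \ X).card := by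
  have hex : ∀ H : Fin n, ∃ Y : Finset (Fin n), H ∈ Hs → Y ∈ P ∧ G ∈ Y ∧ H ∈ Y ∧ 7 ≤ Y.card := by
    intro H
    by_cases hHs : H ∈ Hs
    · have hne : G ≠ H := by
        rintro rfl
        exact hG (hH hHs)
      obtain ⟨Y, hY, hGY, hHY⟩ := h.pair G H hne
      refine ⟨Y, fun _ => ⟨hY, hGY, hHY, h7 Y (Finset.mem_filter.2 ⟨hY, ?_⟩)⟩⟩
      have hs := hside H hHs
      by_cases hGS : G ∈ S
      · have hHS : H ∉ S := fun hc => hs.1 hc hGS
        exact ⟨⟨G, Finset.mem_inter.2 ⟨hGY, hGS⟩⟩, ⟨H, Finset.mem_sdiff.2 ⟨hHY, hHS⟩⟩⟩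
      · have hHS : H ∈ S := hs.2 hGS
        exact ⟨⟨H, Finset.mem_inter.2 ⟨hHY, hHS⟩⟩, ⟨G, Finset.mem_sdiff.2 ⟨hGY, hGS⟩⟩⟩
    · exact ⟨∅, fun hc => absurd hc hHs⟩
  choose Y hY using hex
  -- Y H meets X only in H
  have hYX : ∀ H ∈ Hs, ∀ K ∈ Y H, K ∈ X → K = H := by
    intro H hHs K hK hKX
    by_contra hne
    obtain ⟨g1, g2, g3, -⟩ := hY H hHs
    have := h.uniq (Y H) g1 X hX K H hne hK g3 hKX (hH hHs)
    rw [this] at g2
    exact hG g2
  have hcard : ∀ H ∈ Hs, 5 ≤ ((Y H \ X) \ {G}).card := by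
    intro H hHs
    obtain ⟨g1, g2, g3, g4⟩ := hY H hHs
    have e1 : Y H = insert H (insert G ((Y H \ X) \ {G})) := by
      ext K
      simp only [Finset.mem_insert, Finset.mem_sdiff, Finset.mem_singleton]
      constructor
      · intro hK
        by_cases hKX : K ∈ X
        · left
          exact hYX H hHs K hK hKX
        · by_cases hKG : K = G
          · right
            left
            exact hKG
          · right
            right
            exact ⟨⟨hK, hKX⟩, hKG⟩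
      · rintro (rfl | rfl | ⟨⟨hK, -⟩, -⟩)
        · exact g3
        · exact g2
        · exact hK
    have e2 := Finset.card_insert_le H (insert G ((Y H \ X) \ {G}))
    have e3 := Finset.card_insert_le G ((Y H \ X) \ {G})
    rw [← e1] at e2
    omega
  have hdisj : (Hs : Set (Fin n)).PairwiseDisjoint fun H => (Y H \ X) \ {G} := by
    intro H hHs H' hHs' hne
    rw [Function.onFun, Finset.disjoint_left]
    intro K hK hK'
    simp only [Finset.mem_sdiff, Finset.mem_singleton] at hK hK'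
    obtain ⟨g1, g2, g3, g4⟩ := hY H hHs
    obtain ⟨k1, k2, k3, k4⟩ := hY H' hHs'
    have h1 := h.uniq (Y H) g1 (Y H') k1 K G hK.2 hK.1.1 g2 hK'.1.1 k2
    rw [← h1] at k3
    exact hne (hYX H hHs H' k3 (hH hHs')).symm
  have hsum : 5 * Hs.card ≤ ((univ \ X) \ {G}).card := by
    calc 5 * Hs.card = ∑ _H ∈ Hs, 5 := by rw [Finset.sum_const, smul_eq_mul, mul_comm]
      _ ≤ ∑ H ∈ Hs, ((Y H \ X) \ {G}).card := Finset.sum_le_sum hcard
      _ = (Hs.biUnion fun H => (Y H \ X) \ {G}).card := (Finset.card_biUnion hdisj).symm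
      _ ≤ ((univ \ X) \ {G}).card := by
          refine Finset.card_le_card ?_
          intro K hK
          simp only [Finset.mem_biUnion, Finset.mem_sdiff, Finset.mem_singleton, Finset.mem_univ, true_and] at hK ⊢
          obtain ⟨H, -, ⟨-, h2⟩, h3⟩ := hK
          exact ⟨h2, h3⟩
  have h8 : ((univ \ X) \ {G}).card + 1 = (univ \ X).card := by
    rw [Finset.sdiff_singleton_eq_erase]
    exact Finset.card_erase_add_one (Finset.mem_sdiff.2 ⟨Finset.mem_univ _, hG⟩)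
  omega

/-- **Chunk C4.** Let `a = |S|`, `b = |univ \ S|`, `θ = b / a ∈ [4/9, 1]`, `X ∈ P`, `s₀ = |X ∩ S|`, `t₀ = |X \ S|`, `s₁ = |S \ X|`,
`t₁ = |(univ \ S) \ X|`. The claim is `θ s₀ + t₀ < 2 θ s₁ + 2 t₁`. Let `k = s₁ + t₁ = |univ \ X| ≥ 1` (`Sys.proper`).

If `H ∈ X`, `G ∉ X` are on different sides of `S`, then the block `Y` of `G, H` is in `cross P S`, `Y ∩ X = {H}` (`uniq`), so `Y` has at least `6` elements
outside of `X`. For fixed `G` and different `H` these sets have only `G` in common (`uniq`). Hence: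
(a) if `t₁ ≥ 1` (take `G ∉ S`, `G ∉ X`, all `H ∈ X ∩ S`): `k ≥ 1 + 5 s₀`;
(b) if `s₁ ≥ 1`: `k ≥ 1 + 5 t₀`.
If `s₁, t₁ ≥ 1`: with `m = max s₀ t₀`: `2 θ s₁ + 2 t₁ ≥ 2 θ k ≥ 2 θ (1 + 5 m) > (1 + θ) m ≥ θ s₀ + t₀` (as `10 θ ≥ 1 + θ`).
If `s₁ = 0` (so `t₁ ≥ 1`, `s₀ = a`): `t₁ = k ≥ 1 + 5 a > b ≥ t₁`, impossible.
If `t₁ = 0` (so `s₁ ≥ 1`, `t₀ = b`): `s₁ = k ≥ 1 + 5 b > a ≥ s₁` (as `4 a ≤ 9 b`), impossible. -/
theorem stable_bal {n : ℕ} {P : Finset (Finset (Fin n))} (h : Sys P) (S : Finset (Fin n))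
    (h7 : ∀ X ∈ cross P S, 7 ≤ X.card) (hb : (univ \ S).card ≤ S.card)
    (ha : 4 * S.card ≤ 9 * (univ \ S).card) (h0 : 0 < (univ \ S).card) :
    ∀ X ∈ P, 3 * (((univ \ S).card / S.card : ℝ) * (X ∩ S).card + (X \ S).card) <
      2 * (((univ \ S).card / S.card : ℝ) * S.card + (univ \ S).card) := by
  intro X hX
  have e1 : (X ∩ S).card + (S \ X).card = S.card := by
    rw [Finset.inter_comm]
    exact Finset.card_inter_add_card_sdiff S X
  have e2 : (X \ S).card + ((univ \ S) \ X).card = (univ \ S).card := by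
    have : X \ S = (univ \ S) ∩ X := by
      ext i
      simp only [Finset.mem_sdiff, Finset.mem_inter, Finset.mem_univ, true_and]
      tauto
    rw [this]
    exact Finset.card_inter_add_card_sdiff (univ \ S) X
  have e3 : (univ \ X).card = (S \ X).card + ((univ \ S) \ X).card := by
    rw [← Finset.card_union_of_disjoint]
    · congr 1
      ext i
      simp only [Finset.mem_sdiff, Finset.mem_union, Finset.mem_univ, true_and]
      tauto
    · rw [Finset.disjoint_left]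
      intro i hi hi'
      simp only [Finset.mem_sdiff, Finset.mem_univ, true_and] at hi hi'
      exact hi'.1 hi.1
  have hk : 1 ≤ (univ \ X).card := by
    obtain ⟨i, hi⟩ := h.proper X hX
    exact Finset.card_pos.2 ⟨i, Finset.mem_sdiff.2 ⟨Finset.mem_univ _, hi⟩⟩
  have hA : 1 ≤ ((univ \ S) \ X).card → 1 + 5 * (X ∩ S).card ≤ (univ \ X).card := by
    intro h1
    obtain ⟨G, hG⟩ := Finset.card_pos.1 h1
    simp only [Finset.mem_sdiff, Finset.mem_univ, true_and] at hG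
    refine c4_count h S h7 X hX G hG.2 (X ∩ S) Finset.inter_subset_left fun H hH => ?_
    rw [Finset.mem_inter] at hH
    exact ⟨fun _ => hG.1, fun _ => hH.2⟩
  have hB : 1 ≤ (S \ X).card → 1 + 5 * (X \ S).card ≤ (univ \ X).card := by
    intro h1
    obtain ⟨G, hG⟩ := Finset.card_pos.1 h1
    simp only [Finset.mem_sdiff] at hG
    refine c4_count h S h7 X hX G hG.2 (X \ S) Finset.sdiff_subset fun H hH => ?_
    rw [Finset.mem_sdiff] at hH
    exact ⟨fun hc => absurd hc hH.2, fun hc => absurd hG.1 hc⟩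
  generalize (univ \ X).card = k at *
  generalize (X ∩ S).card = s0 at *
  generalize (S \ X).card = s1 at *
  generalize (X \ S).card = t0 at *
  generalize ((univ \ S) \ X).card = t1 at *
  generalize S.card = a at *
  generalize (univ \ S).card = b at *
  have hs1 : 1 ≤ s1 := by
    by_contra hcon
    have := hA (by omega)
    omega
  have ht1 : 1 ≤ t1 := by
    by_contra hcon
    have := hB (by omega)
    omega
  have hA' := hA ht1
  have hB' := hB hs1
  have ha0 : (0 : ℝ) < a := by exact_mod_cast (by omega : 0 < a)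
  have hb' : (b : ℝ) ≤ a := by exact_mod_cast hb
  have ha' : 4 * (a : ℝ) ≤ 9 * b := by exact_mod_cast ha
  have hA'' : 1 + 5 * (s0 : ℝ) ≤ k := by exact_mod_cast hA'
  have hB'' : 1 + 5 * (t0 : ℝ) ≤ k := by exact_mod_cast hB'
  have e1' : (s0 : ℝ) + s1 = a := by exact_mod_cast e1
  have e2' : (t0 : ℝ) + t1 = b := by exact_mod_cast e2
  have e3' : (k : ℝ) = s1 + t1 := by exact_mod_cast e3
  have hθ1 : 4 / 9 ≤ (b / a : ℝ) := by
    rw [div_le_div_iff₀ (by norm_num) ha0]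
    linarith
  have hθ2 : (b / a : ℝ) ≤ 1 := by
    rw [div_le_one ha0]
    exact hb'
  have hθa : (b / a : ℝ) * a = b := div_mul_cancel₀ _ ha0.ne'
  generalize (b / a : ℝ) = θ at *
  have ht1' : (0 : ℝ) ≤ t1 := Nat.cast_nonneg _
  have g1 : θ * s0 ≤ θ * ((k - 1) / 5) := mul_le_mul_of_nonneg_left (by linarith) (by linarith)
  have g2 : 2 * θ * k ≤ 2 * θ * s1 + 2 * t1 := by
    rw [e3']
    nlinarith [mul_nonneg (sub_nonneg.2 hθ2) ht1']
  have g3 : (1 + θ) * ((k - 1) / 5) < 2 * θ * k := by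
    have h1 : (1 : ℝ) ≤ k := by exact_mod_cast hk
    nlinarith [mul_nonneg (by linarith : (0 : ℝ) ≤ 9 * θ - 1) (sub_nonneg.2 h1)]
  have g4 : θ * s0 + t0 < 2 * θ * s1 + 2 * t1 := by nlinarith
  have g5 : θ * s0 + θ * s1 = b := by rw [← mul_add, e1', hθa]
  rw [hθa]
  linarith

end Pool.Agent.Lib.H64A
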