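import Pool.Agent.Lib.H64A.C1
import Pool.Agent.Lib.H64A.C2
import Pool.Agent.Lib.H64A.C4
import Pool.Agent.Lib.H64A.C8

/-!
# H64A, chunk C5: the balanced case
-/

set_option autoImplicit false

namespace Pool.Agent.Lib.H64A

open Finset

/-- **Chunk C5.** There is no balanced set `S` all of whose crossing blocks have at least seven elements.

Proof. `a = |S|`, `b = |univ \ S|`, `θ = b / a ∈ [4/9, 1]`, `θ a = b`. There is a pair in `S × (univ \ S)`, hence a crossing block, so `a + b ≥ 7`, hence `b ≥ 3`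
and `θ a + b = 2 b > 3 ≥ 3 θ`. `energy_two` (with `stable_bal`) gives `∑ ((θ s + t)²/2 - θ² s - t) ≤ (4/3) b² - θ² a - b < (4/3) b²`. The terms are
`(θ² s (s - 2) + t (t - 2))/2 + θ s t ≥ (4/3) θ s t` by `bal_ineq` (`s + t = |X| ≥ 7`), and `∑ s t = a b` (`cross_count`), so the sum is at least
`(4/3) θ a b = (4/3) b²`: contradiction. -/
theorem balanced {n : ℕ} {P : Finset (Finset (Fin n))} (h : Sys P) (S : Finset (Fin n))
    (h7 : ∀ X ∈ cross P S, 7 ≤ X.card) (hb : (univ \ S).card ≤ S.card)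
    (ha : 4 * S.card ≤ 9 * (univ \ S).card) (h0 : 0 < (univ \ S).card) : False := by
  have hst := stable_bal h S h7 hb ha h0
  have hcc := cross_count h S
  -- a crossing block
  have hcard : ∀ X : Finset (Fin n), (X ∩ S).card + (X \ S).card = X.card := fun X =>
    Finset.card_inter_add_card_sdiff X S
  have hne : (cross P S).Nonempty := by
    by_contra hcon
    rw [Finset.not_nonempty_iff_eq_empty] at hcon
    rw [hcon, Finset.sum_empty] at hcc
    have : 0 < S.card * (univ \ S).card := Nat.mul_pos (by omega) h0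
    omega
  obtain ⟨X0, hX0⟩ := hne
  have h8 : 7 ≤ S.card + (univ \ S).card := by
    refine (h7 X0 hX0).trans ?_
    rw [← hcard X0]
    exact Nat.add_le_add (Finset.card_le_card Finset.inter_subset_right)
      (Finset.card_le_card (Finset.sdiff_subset_sdiff (Finset.subset_univ _) subset_rfl))
  have hb3 : 3 ≤ (univ \ S).card := by omega
  have ha0 : (0 : ℝ) < S.card := by exact_mod_cast (by omega : 0 < S.card)
  have hb3' : (3 : ℝ) ≤ (univ \ S).card := by exact_mod_cast hb3
  have hb' : ((univ \ S).card : ℝ) ≤ S.card := by exact_mod_cast hb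
  have ha' : 4 * (S.card : ℝ) ≤ 9 * (univ \ S).card := by exact_mod_cast ha
  have hθ1 : 4 / 9 ≤ ((univ \ S).card / S.card : ℝ) := by
    rw [div_le_div_iff₀ (by norm_num) ha0]
    linarith
  have hθ2 : ((univ \ S).card / S.card : ℝ) ≤ 1 := by
    rw [div_le_one ha0]
    exact hb'
  have hθa : ((univ \ S).card / S.card : ℝ) * S.card = (univ \ S).card := div_mul_cancel₀ _ ha0.ne'
  set θ : ℝ := ((univ \ S).card / S.card : ℝ) with hθ
  have hE := energy_two h S (θ := θ) (by linarith) (by rw [hθa]; linarith) (by rw [hθa]; linarith) hst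
  rw [hθa] at hE
  have hlow : ∀ X ∈ cross P S, 4 / 3 * θ * (((X ∩ S).card * (X \ S).card : ℕ) : ℝ) ≤
      (θ * (X ∩ S).card + (X \ S).card) ^ 2 / 2 - θ ^ 2 * (X ∩ S).card - (X \ S).card := by
    intro X hX
    have g1 := (Finset.mem_filter.1 hX).2
    have g2 : 1 ≤ (X ∩ S).card := Finset.card_pos.2 g1.1
    have g3 : 1 ≤ (X \ S).card := Finset.card_pos.2 g1.2
    have g4 := h7 X hX
    rw [← hcard X] at g4
    have g5 := bal_ineq hθ1 hθ2 g2 g3 g4
    push_cast
    nlinarith
  have hsum := Finset.sum_le_sum hlow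
  rw [← Finset.mul_sum, ← Nat.cast_sum, hcc] at hsum
  push_cast at hsum
  have e1 : 4 / 3 * θ * ((S.card : ℝ) * (univ \ S).card) = 4 / 3 * ((univ \ S).card : ℝ) ^ 2 := by
    have : 4 / 3 * θ * ((S.card : ℝ) * (univ \ S).card) = 4 / 3 * (θ * S.card) * (univ \ S).card := by ring
    rw [this, hθa]
    ring
  rw [e1] at hsum
  have h9 : 0 ≤ θ ^ 2 * (S.card : ℝ) := by positivity
  nlinarith

end Pool.Agent.Lib.H64A
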