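import Mathlib

/-!
# H64A: Aomoto-Betti numbers at primes p ≥ 7 vanish (MP_92491b_gt), definitions

See PROOF.md.
-/

set_option autoImplicit false

namespace Pool.Agent.Lib.H64A

open Finset

/-- three members of a family of vectors are linearly dependent -/
def dep {V : Type*} [AddCommGroup V] [Module ℂ V] {n : ℕ} (f : Fin n → V) (i j k : Fin n) : Prop :=
  ¬ LinearIndependent ℂ ![f i, f j, f k]

open scoped Classical in
/-- the block of `i` and `j` -/
noncomputable def blk {n : ℕ} (D : Fin n → Fin n → Fin n → Prop) (i j : Fin n) : Finset (Fin n) :=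
  univ.filter fun k => D i j k

open scoped Classical in
/-- all blocks -/
noncomputable def blks {n : ℕ} (D : Fin n → Fin n → Fin n → Prop) : Finset (Finset (Fin n)) :=
  (univ.filter fun q : Fin n × Fin n => q.1 ≠ q.2).image fun q => blk D q.1 q.2

/-- squared norm of a vector of `ℂ³` -/
noncomputable def nsq (v : Fin 3 → ℂ) : ℝ := ∑ j, ‖v j‖ ^ 2

/-- Hermitian product on `ℂ³` -/
noncomputable def hp (u v : Fin 3 → ℂ) : ℂ := ∑ j, starRingEnd ℂ (u j) * v j

/-- squared norm of `T x i` -/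
noncomputable def NT {n : ℕ} (x : Fin n → Fin 3 → ℂ) (T : Matrix (Fin 3) (Fin 3) ℂ) (i : Fin n) : ℝ :=
  nsq (T.mulVec (x i))

/-- the function to be minimised -/
noncomputable def FT {n : ℕ} (x : Fin n → Fin 3 → ℂ) (c : Fin n → ℝ)
    (T : Matrix (Fin 3) (Fin 3) ℂ) : ℝ :=
  ∑ i, c i * Real.log (NT x T i) - (∑ i, c i) / 3 * Real.log (‖T.det‖ ^ 2)

/-- stable weighted configurations of points in the complex projective plane -/
structure Stab {n : ℕ} (x : Fin n → Fin 3 → ℂ) (c : Fin n → ℝ) : Prop where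
  pos : ∀ i, 0 < c i
  one : ∀ i, 3 * c i < ∑ j, c j
  two : ∀ i j, i ≠ j → 3 * ∑ k ∈ blk (dep x) i j, c k < 2 * ∑ j, c j
  ind : ∀ i j, i ≠ j → LinearIndependent ℂ ![x i, x j]
  gen : ∃ i j k, LinearIndependent ℂ ![x i, x j, x k]

/-- A system of blocks in which two points are in exactly one block, no block contains all points, and the
energy inequality holds for all stable weights. -/
structure Sys {n : ℕ} (P : Finset (Finset (Fin n))) : Prop where
  pair : ∀ i j, i ≠ j → ∃ X ∈ P, i ∈ X ∧ j ∈ X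
  uniq : ∀ X ∈ P, ∀ Y ∈ P, ∀ i j, i ≠ j → i ∈ X → j ∈ X → i ∈ Y → j ∈ Y → X = Y
  proper : ∀ X ∈ P, ∃ i, i ∉ X
  energy : ∀ c : Fin n → ℝ, (∀ i, 0 < c i) → (∀ i, 3 * c i < ∑ j, c j) →
    (∀ X ∈ P, 3 * ∑ i ∈ X, c i < 2 * ∑ j, c j) → ∀ Q ⊆ P,
    ∑ X ∈ Q, ((∑ i ∈ X, c i) ^ 2 / 2 - ∑ i ∈ X, c i ^ 2) ≤ (∑ j, c j) ^ 2 / 3 - ∑ j, c j ^ 2

/-- the blocks meeting `S` and its complement -/
def cross {n : ℕ} (P : Finset (Finset (Fin n))) (S : Finset (Fin n)) : Finset (Finset (Fin n)) :=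
  P.filter fun X => (X ∩ S).Nonempty ∧ (X \ S).Nonempty

/-- the budget of a block for the values `τ` outside of `S`: ordered pairs with different values, plus ordered pairs with
opposite values -/
def bet {n p : ℕ} (τ : Fin n → ZMod p) (S X : Finset (Fin n)) : ℕ :=
  (((X \ S) ×ˢ (X \ S)).filter fun q => τ q.1 ≠ τ q.2).card +
    (((X \ S) ×ˢ (X \ S)).filter fun q => τ q.1 + τ q.2 = 0).card

end Pool.Agent.Lib.H64A
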