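import Pool.Agent.Lib.H64A.B1

/-!
# H64A, chunk G1: coercivity
-/

set_option autoImplicit false

namespace Pool.Agent.Lib.H64A

open Finset

theorem G1_fin_lower {ι : Type*} [Finite ι] (p : ι → Prop) (g : ι → ℝ) (h : ∀ t, p t → 0 < g t) :
    ∃ d : ℝ, 0 < d ∧ ∀ t, p t → d ≤ g t := by
  classical
  rcases isEmpty_or_nonempty ι with he | hne
  · exact ⟨1, one_pos, fun t => (he.false t).elim⟩
  · obtain ⟨t₀, ht₀⟩ := Finite.exists_min (fun t => if p t then g t else 1)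
    refine ⟨if p t₀ then g t₀ else 1, ?_, fun t ht => ?_⟩
    · split_ifs with h0
      · exact h t₀ h0
      · exact one_pos
    · have h1 := ht₀ t
      simp only [if_pos ht] at h1
      exact h1

theorem G1_fin_upper {ι : Type*} [Finite ι] (p : ι → Prop) (g : ι → ℝ) :
    ∃ d : ℝ, 0 < d ∧ ∀ t, p t → g t ≤ d := by
  classical
  rcases isEmpty_or_nonempty ι with he | hne
  · exact ⟨1, one_pos, fun t => (he.false t).elim⟩
  · obtain ⟨t₀, ht₀⟩ := Finite.exists_max (fun t => g t)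
    refine ⟨max (g t₀) 1, lt_max_of_lt_right one_pos, fun t _ => (ht₀ t).trans (le_max_left _ _)⟩

theorem G1_nsq_pos {v : Fin 3 → ℂ} (h : v ≠ 0) : 0 < nsq v := by
  obtain ⟨j, hj⟩ := Function.ne_iff.1 h
  unfold nsq
  refine Finset.sum_pos' (fun i _ => by positivity) ⟨j, Finset.mem_univ _, ?_⟩
  have : v j ≠ 0 := hj
  positivity

theorem G1_nsq_nonneg (v : Fin 3 → ℂ) : 0 ≤ nsq v := Finset.sum_nonneg fun _ _ => by positivity

theorem G1_NT_pos {n : ℕ} {x : Fin n → Fin 3 → ℂ} {T : Matrix (Fin 3) (Fin 3) ℂ} (hT : T.det ≠ 0)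
    {i : Fin n} (hx : x i ≠ 0) : 0 < NT x T i := by
  refine G1_nsq_pos fun h => hx ?_
  exact Matrix.eq_zero_of_mulVec_eq_zero hT h

theorem G1_entry (v : Fin 3 → ℂ) (j : Fin 3) : ‖v j‖ ≤ Real.sqrt (nsq v) := by
  refine Real.le_sqrt_of_sq_le ?_
  unfold nsq
  exact Finset.single_le_sum (f := fun j => ‖v j‖ ^ 2) (fun _ _ => by positivity) (Finset.mem_univ j)

theorem G1_det_le (M : Matrix (Fin 3) (Fin 3) ℂ) :
    ‖M.det‖ ≤ 6 * (Real.sqrt (nsq fun r => M r 0) * Real.sqrt (nsq fun r => M r 1) *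
      Real.sqrt (nsq fun r => M r 2)) := by
  have a : ∀ j, ‖M j 0‖ ≤ Real.sqrt (nsq fun r => M r 0) := fun j => G1_entry (fun r => M r 0) j
  have b : ∀ j, ‖M j 1‖ ≤ Real.sqrt (nsq fun r => M r 1) := fun j => G1_entry (fun r => M r 1) j
  have c : ∀ j, ‖M j 2‖ ≤ Real.sqrt (nsq fun r => M r 2) := fun j => G1_entry (fun r => M r 2) j
  have key : ∀ i j k : Fin 3, ‖M i 0 * M j 1 * M k 2‖ ≤ Real.sqrt (nsq fun r => M r 0) *
      Real.sqrt (nsq fun r => M r 1) * Real.sqrt (nsq fun r => M r 2) := by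
    intro i j k
    rw [norm_mul, norm_mul]
    exact mul_le_mul (mul_le_mul (a i) (b j) (norm_nonneg _) (Real.sqrt_nonneg _)) (c k)
      (norm_nonneg _) (by positivity)
  have h1 := key 0 1 2
  have h2 := key 0 2 1
  have h3 := key 1 0 2
  have h4 := key 1 2 0
  have h5 := key 2 0 1
  have h6 := key 2 1 0
  have e : M.det = M 0 0 * M 1 1 * M 2 2 - M 0 0 * M 2 1 * M 1 2 - M 1 0 * M 0 1 * M 2 2 +
      M 2 0 * M 0 1 * M 1 2 + M 1 0 * M 2 1 * M 0 2 - M 2 0 * M 1 1 * M 0 2 := by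
    rw [Matrix.det_fin_three]
    ring
  rw [e]
  have g1 := norm_sub_le (M 0 0 * M 1 1 * M 2 2 - M 0 0 * M 2 1 * M 1 2 - M 1 0 * M 0 1 * M 2 2 +
      M 2 0 * M 0 1 * M 1 2 + M 1 0 * M 2 1 * M 0 2) (M 2 0 * M 1 1 * M 0 2)
  have g2 := norm_add_le (M 0 0 * M 1 1 * M 2 2 - M 0 0 * M 2 1 * M 1 2 - M 1 0 * M 0 1 * M 2 2 +
      M 2 0 * M 0 1 * M 1 2) (M 1 0 * M 2 1 * M 0 2)
  have g3 := norm_add_le (M 0 0 * M 1 1 * M 2 2 - M 0 0 * M 2 1 * M 1 2 - M 1 0 * M 0 1 * M 2 2)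
      (M 2 0 * M 0 1 * M 1 2)
  have g4 := norm_sub_le (M 0 0 * M 1 1 * M 2 2 - M 0 0 * M 2 1 * M 1 2) (M 1 0 * M 0 1 * M 2 2)
  have g5 := norm_sub_le (M 0 0 * M 1 1 * M 2 2) (M 0 0 * M 2 1 * M 1 2)
  linarith

/-- rows `x i, x j, x k` -/
def G1_mat {n : ℕ} (x : Fin n → Fin 3 → ℂ) (i j k : Fin n) : Matrix (Fin 3) (Fin 3) ℂ :=
  Matrix.of ![x i, x j, x k]

theorem G1_mat_det {n : ℕ} {x : Fin n → Fin 3 → ℂ} {i j k : Fin n}
    (h : LinearIndependent ℂ ![x i, x j, x k]) : (G1_mat x i j k).det ≠ 0 := by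
  have h1 : IsUnit (G1_mat x i j k) := by
    rw [← Matrix.linearIndependent_rows_iff_isUnit]
    exact h
  exact ((Matrix.isUnit_iff_isUnit_det _).1 h1).ne_zero

theorem G1_prod {n : ℕ} (x : Fin n → Fin 3 → ℂ) (T : Matrix (Fin 3) (Fin 3) ℂ) (i j k : Fin n) :
    ‖T.det‖ ^ 2 * ‖(G1_mat x i j k).det‖ ^ 2 ≤ 36 * (NT x T i * NT x T j * NT x T k) := by
  have h := G1_det_le (T * (G1_mat x i j k).transpose)
  have c0 : (fun r => (T * (G1_mat x i j k).transpose) r 0) = T.mulVec (x i) := by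
    ext r
    simp only [Matrix.mul_apply, Matrix.transpose_apply, Matrix.mulVec, dotProduct]
    rfl
  have c1 : (fun r => (T * (G1_mat x i j k).transpose) r 1) = T.mulVec (x j) := by
    ext r
    simp only [Matrix.mul_apply, Matrix.transpose_apply, Matrix.mulVec, dotProduct]
    rfl
  have c2 : (fun r => (T * (G1_mat x i j k).transpose) r 2) = T.mulVec (x k) := by
    ext r
    simp only [Matrix.mul_apply, Matrix.transpose_apply, Matrix.mulVec, dotProduct]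
    rfl
  rw [c0, c1, c2, Matrix.det_mul, Matrix.det_transpose, norm_mul] at h
  have h2 := pow_le_pow_left₀ (by positivity) h 2
  have e1 : (6 * (Real.sqrt (nsq (T.mulVec (x i))) * Real.sqrt (nsq (T.mulVec (x j))) *
      Real.sqrt (nsq (T.mulVec (x k))))) ^ 2 = 36 * (NT x T i * NT x T j * NT x T k) := by
    have a := Real.sq_sqrt (G1_nsq_nonneg (T.mulVec (x i)))
    have b := Real.sq_sqrt (G1_nsq_nonneg (T.mulVec (x j)))
    have c := Real.sq_sqrt (G1_nsq_nonneg (T.mulVec (x k)))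
    unfold NT
    rw [mul_pow, mul_pow, mul_pow, a, b, c]
    norm_num
  rw [e1, mul_pow] at h2
  exact h2

theorem G1_nsq_comb (u v w : Fin 3 → ℂ) (a b c : ℂ) :
    nsq (a • u + b • v + c • w) ≤
      3 * (‖a‖ ^ 2 + ‖b‖ ^ 2 + ‖c‖ ^ 2) * (nsq u + nsq v + nsq w) := by
  have h : ∀ j, ‖(a • u + b • v + c • w) j‖ ^ 2 ≤
      3 * (‖a‖ ^ 2 + ‖b‖ ^ 2 + ‖c‖ ^ 2) * (‖u j‖ ^ 2 + ‖v j‖ ^ 2 + ‖w j‖ ^ 2) := by
    intro j
    have e : (a • u + b • v + c • w) j = a * u j + b * v j + c * w j := rfl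
    rw [e]
    have h1 : ‖a * u j + b * v j + c * w j‖ ≤ ‖a‖ * ‖u j‖ + ‖b‖ * ‖v j‖ + ‖c‖ * ‖w j‖ := by
      refine (norm_add₃_le).trans ?_
      rw [norm_mul, norm_mul, norm_mul]
    have h2 := pow_le_pow_left₀ (norm_nonneg _) h1 2
    refine h2.trans ?_
    nlinarith [sq_nonneg (‖a‖ * ‖v j‖ - ‖b‖ * ‖u j‖), sq_nonneg (‖a‖ * ‖w j‖ - ‖c‖ * ‖u j‖),
      sq_nonneg (‖b‖ * ‖w j‖ - ‖c‖ * ‖v j‖), sq_nonneg (‖a‖ * ‖u j‖), sq_nonneg (‖b‖ * ‖v j‖),
      sq_nonneg (‖c‖ * ‖w j‖), sq_nonneg (‖a‖ * ‖v j‖), sq_nonneg (‖b‖ * ‖u j‖),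
      sq_nonneg (‖a‖ * ‖w j‖), sq_nonneg (‖c‖ * ‖u j‖), sq_nonneg (‖b‖ * ‖w j‖),
      sq_nonneg (‖c‖ * ‖v j‖), sq_nonneg (‖a‖ * ‖u j‖ - ‖b‖ * ‖v j‖),
      sq_nonneg (‖a‖ * ‖u j‖ - ‖c‖ * ‖w j‖), sq_nonneg (‖b‖ * ‖v j‖ - ‖c‖ * ‖w j‖)]
  unfold nsq
  rw [← Finset.sum_add_distrib, ← Finset.sum_add_distrib, Finset.mul_sum]
  exact Finset.sum_le_sum fun j _ => h j

theorem G1_comb {n : ℕ} (x : Fin n → Fin 3 → ℂ) {i j k : Fin n}
    (h : LinearIndependent ℂ ![x i, x j, x k]) (a : Fin n) :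
    ∃ C : ℝ, ∀ T : Matrix (Fin 3) (Fin 3) ℂ, NT x T a ≤ C * (NT x T i + NT x T j + NT x T k) := by
  have hspan : Submodule.span ℂ (Set.range ![x i, x j, x k]) = ⊤ :=
    h.span_eq_top_of_card_eq_finrank (by simp)
  have ha : x a ∈ Submodule.span ℂ (Set.range ![x i, x j, x k]) := by
    rw [hspan]
    trivial
  rw [Submodule.mem_span_range_iff_exists_fun] at ha
  obtain ⟨w, hw⟩ := ha
  refine ⟨3 * (‖w 0‖ ^ 2 + ‖w 1‖ ^ 2 + ‖w 2‖ ^ 2), fun T => ?_⟩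
  have e : T.mulVec (x a) = w 0 • T.mulVec (x i) + w 1 • T.mulVec (x j) + w 2 • T.mulVec (x k) := by
    rw [← hw, Fin.sum_univ_three]
    simp only [Matrix.mulVec_add, Matrix.mulVec_smul]
    rfl
  unfold NT
  rw [e]
  exact G1_nsq_comb _ _ _ _ _ _

theorem G1_main {n : ℕ} {x : Fin n → Fin 3 → ℂ} {c : Fin n → ℝ} (h : Stab x c) {δ d Cb : ℝ}
    (hδ : 0 < δ) (hd : 0 < d) (hCb : 0 < Cb) (hδ1 : ∀ i, δ ≤ (∑ j, c j) / 3 - c i)
    (hδ2 : ∀ i j, i ≠ j → δ ≤ 2 * (∑ j, c j) / 3 - ∑ k ∈ blk (dep x) i j, c k)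
    (hdd : ∀ i j k, LinearIndependent ℂ ![x i, x j, x k] → d ≤ ‖(G1_mat x i j k).det‖ ^ 2)
    (hC : ∀ i j k, LinearIndependent ℂ ![x i, x j, x k] → ∀ a, ∀ T : Matrix (Fin 3) (Fin 3) ℂ,
      NT x T a ≤ Cb * (NT x T i + NT x T j + NT x T k))
    (T : Matrix (Fin 3) (Fin 3) ℂ) (hT : T.det ≠ 0) (a b : Fin n) :
    δ * (Real.log (NT x T a) - Real.log (NT x T b)) -
      ((∑ i, c i) / 3 * (Real.log 36 - Real.log d) + δ * Real.log (3 * Cb)) ≤ FT x c T := by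
  classical
  have hx : ∀ i, x i ≠ 0 := by
    intro i
    obtain ⟨i₀, j₀, k₀, hg⟩ := h.gen
    have : ∃ j, i ≠ j := by
      by_contra hcon
      push Not at hcon
      have h1 := hg.injective
      have h2 : (![x i₀, x j₀, x k₀] : Fin 3 → Fin 3 → ℂ) 0 = ![x i₀, x j₀, x k₀] 1 := by
        show x i₀ = x j₀
        rw [← hcon i₀, ← hcon j₀]
      exact absurd (h1 h2) (by decide)
    obtain ⟨j, hj⟩ := this
    exact (h.ind i j hj).ne_zero 0
  have hpos : ∀ i, 0 < NT x T i := fun i => G1_NT_pos hT (hx i)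
  set l : Fin n → ℝ := fun i => Real.log (NT x T i) with hl
  -- first
  obtain ⟨i₁, -, hi₁⟩ := Finset.exists_min_image univ l ⟨a, mem_univ a⟩
  -- second
  have hne2 : (univ.filter fun i => i ≠ i₁).Nonempty := by
    obtain ⟨i₀, j₀, k₀, hg⟩ := h.gen
    by_contra hcon
    rw [Finset.not_nonempty_iff_eq_empty, Finset.filter_eq_empty_iff] at hcon
    have h1 := hg.injective
    have h2 : (![x i₀, x j₀, x k₀] : Fin 3 → Fin 3 → ℂ) 0 = ![x i₀, x j₀, x k₀] 1 := by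
      show x i₀ = x j₀
      rw [not_not.1 (hcon (mem_univ i₀)), not_not.1 (hcon (mem_univ j₀))]
    exact absurd (h1 h2) (by decide)
  obtain ⟨i₂, hi₂m, hi₂⟩ := Finset.exists_min_image _ l hne2
  have h12 : i₁ ≠ i₂ := fun hh => (Finset.mem_filter.1 hi₂m).2 hh.symm
  -- third
  have hne3 : (univ.filter fun i => i ∉ blk (dep x) i₁ i₂).Nonempty := by
    obtain ⟨k, hk⟩ := blk_proper (f := x) h.ind h.gen h12
    exact ⟨k, Finset.mem_filter.2 ⟨mem_univ k, hk⟩⟩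
  obtain ⟨i₃, hi₃m, hi₃⟩ := Finset.exists_min_image _ l hne3
  have h3 : i₃ ∉ blk (dep x) i₁ i₂ := (Finset.mem_filter.1 hi₃m).2
  have hB1 : i₁ ∈ blk (dep x) i₁ i₂ := mem_blk_left (f := x) i₁ i₂
  have h13 : i₃ ≠ i₁ := fun hh => h3 (hh ▸ hB1)
  have hli : LinearIndependent ℂ ![x i₁, x i₂, x i₃] := by
    by_contra hcon
    apply h3
    unfold blk
    exact Finset.mem_filter.2 ⟨mem_univ _, hcon⟩
  have l12 : l i₁ ≤ l i₂ := hi₁ i₂ (mem_univ _)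
  have l23 : l i₂ ≤ l i₃ := hi₂ i₃ (Finset.mem_filter.2 ⟨mem_univ _, h13⟩)
  set C : ℝ := ∑ i, c i with hCdef
  set B : ℝ := ∑ k ∈ blk (dep x) i₁ i₂, c k with hBdef
  -- the sum
  have hsum : c i₁ * l i₁ + (B - c i₁) * l i₂ + (C - B) * l i₃ ≤ ∑ i, c i * l i := by
    have e1 : ∑ i, c i * l i = ∑ i ∈ blk (dep x) i₁ i₂, c i * l i +
        ∑ i ∈ univ \ blk (dep x) i₁ i₂, c i * l i := by
      rw [add_comm, Finset.sum_sdiff (Finset.subset_univ _)]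
    have e2 : C = B + ∑ i ∈ univ \ blk (dep x) i₁ i₂, c i := by
      rw [hCdef, hBdef, add_comm, Finset.sum_sdiff (Finset.subset_univ _)]
    have e3 : ∑ i ∈ blk (dep x) i₁ i₂, c i * l i = c i₁ * l i₁ +
        ∑ i ∈ (blk (dep x) i₁ i₂).erase i₁, c i * l i :=
      (Finset.add_sum_erase _ (fun i => c i * l i) hB1).symm
    have e4 : B = c i₁ + ∑ i ∈ (blk (dep x) i₁ i₂).erase i₁, c i :=
      (Finset.add_sum_erase _ c hB1).symm
    have g1 : (∑ i ∈ (blk (dep x) i₁ i₂).erase i₁, c i) * l i₂ ≤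
        ∑ i ∈ (blk (dep x) i₁ i₂).erase i₁, c i * l i := by
      rw [Finset.sum_mul]
      refine Finset.sum_le_sum fun i hi => mul_le_mul_of_nonneg_left ?_ (h.pos i).le
      exact hi₂ i (Finset.mem_filter.2 ⟨mem_univ _, (Finset.mem_erase.1 hi).1⟩)
    have g2 : (∑ i ∈ univ \ blk (dep x) i₁ i₂, c i) * l i₃ ≤
        ∑ i ∈ univ \ blk (dep x) i₁ i₂, c i * l i := by
      rw [Finset.sum_mul]
      refine Finset.sum_le_sum fun i hi => mul_le_mul_of_nonneg_left ?_ (h.pos i).le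
      exact hi₃ i (Finset.mem_filter.2 ⟨mem_univ _, (Finset.mem_sdiff.1 hi).2⟩)
    rw [e1, e3]
    have e5 : C - B = ∑ i ∈ univ \ blk (dep x) i₁ i₂, c i := by linarith
    have e6 : B - c i₁ = ∑ i ∈ (blk (dep x) i₁ i₂).erase i₁, c i := by linarith
    rw [e5, e6]
    linarith
  -- the determinant
  have hTn : 0 < ‖T.det‖ ^ 2 := by positivity
  have hdet : Real.log (‖T.det‖ ^ 2) ≤ Real.log 36 - Real.log d + (l i₁ + l i₂ + l i₃) := by
    have g1 := G1_prod x T i₁ i₂ i₃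
    have g2 := hdd i₁ i₂ i₃ hli
    have g3 : ‖T.det‖ ^ 2 * d ≤ 36 * (NT x T i₁ * NT x T i₂ * NT x T i₃) :=
      (mul_le_mul_of_nonneg_left g2 hTn.le).trans g1
    have g4 := Real.log_le_log (by positivity) g3
    have p1 := (hpos i₁).ne'
    have p2 := (hpos i₂).ne'
    have p3 := (hpos i₃).ne'
    rw [Real.log_mul hTn.ne' hd.ne', Real.log_mul (by norm_num)
      (mul_ne_zero (mul_ne_zero p1 p2) p3), Real.log_mul (mul_ne_zero p1 p2) p3,
      Real.log_mul p1 p2] at g4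
    simp only [hl]
    linarith
  have hCpos : 0 < C := Finset.sum_pos (fun i _ => h.pos i) ⟨a, mem_univ a⟩
  -- combination
  have hla : l a ≤ l i₃ + Real.log (3 * Cb) := by
    have g1 := hC i₁ i₂ i₃ hli a T
    have m1 : NT x T i₁ ≤ NT x T i₃ := by
      have := l12.trans l23
      simp only [hl] at this
      exact (Real.log_le_log_iff (hpos _) (hpos _)).1 this
    have m2 : NT x T i₂ ≤ NT x T i₃ := by
      have := l23
      simp only [hl] at this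
      exact (Real.log_le_log_iff (hpos _) (hpos _)).1 this
    have g2 : NT x T a ≤ NT x T i₃ * (3 * Cb) := by nlinarith
    have g3 := Real.log_le_log (hpos a) g2
    rw [Real.log_mul (hpos _).ne' (by positivity)] at g3
    exact g3
  have hlb : l i₁ ≤ l b := hi₁ b (mem_univ _)
  have hF : FT x c T = ∑ i, c i * l i - C / 3 * Real.log (‖T.det‖ ^ 2) := rfl
  rw [hF]
  have q1 : C / 3 * Real.log (‖T.det‖ ^ 2) ≤
      C / 3 * (Real.log 36 - Real.log d + (l i₁ + l i₂ + l i₃)) :=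
    mul_le_mul_of_nonneg_left hdet (by positivity)
  have q2 : δ * (l i₂ - l i₁) ≤ (C / 3 - c i₁) * (l i₂ - l i₁) :=
    mul_le_mul_of_nonneg_right (hδ1 i₁) (by linarith)
  have q3 : δ * (l i₃ - l i₂) ≤ (2 * C / 3 - B) * (l i₃ - l i₂) :=
    mul_le_mul_of_nonneg_right (hδ2 i₁ i₂ h12) (by linarith)
  have q4 : δ * (l a - l b) ≤ δ * (l i₃ - l i₁) + δ * Real.log (3 * Cb) := by
    rw [← mul_add]
    exact mul_le_mul_of_nonneg_left (by linarith) hδ.le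
  show δ * (l a - l b) - (C / 3 * (Real.log 36 - Real.log d) + δ * Real.log (3 * Cb)) ≤ _
  nlinarith

/-- **Chunk G1.** Coercivity of `FT` up to scaling. -/
theorem coercive {n : ℕ} {x : Fin n → Fin 3 → ℂ} {c : Fin n → ℝ} (h : Stab x c) :
    ∃ ε : ℝ, 0 < ε ∧ ∃ K : ℝ, ∀ T : Matrix (Fin 3) (Fin 3) ℂ, T.det ≠ 0 → ∀ a b : Fin n,
      ε * (Real.log (NT x T a) - Real.log (NT x T b)) - K ≤ FT x c T := by
  obtain ⟨δ₁, hδ₁, h1⟩ := G1_fin_lower (fun _ : Fin n => True) (fun i => (∑ j, c j) / 3 - c i)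
    (fun i _ => by have := h.one i; linarith)
  obtain ⟨δ₂, hδ₂, h2⟩ := G1_fin_lower (fun q : Fin n × Fin n => q.1 ≠ q.2)
    (fun q => 2 * (∑ j, c j) / 3 - ∑ k ∈ blk (dep x) q.1 q.2, c k)
    (fun q hq => by have := h.two q.1 q.2 hq; linarith)
  obtain ⟨d, hd, hdd⟩ := G1_fin_lower
    (fun q : Fin n × Fin n × Fin n => LinearIndependent ℂ ![x q.1, x q.2.1, x q.2.2])
    (fun q => ‖(G1_mat x q.1 q.2.1 q.2.2).det‖ ^ 2) (fun q hq => by
      have := G1_mat_det hq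
      positivity)
  have hC : ∀ q : (Fin n × Fin n × Fin n) × Fin n, ∃ C : ℝ,
      LinearIndependent ℂ ![x q.1.1, x q.1.2.1, x q.1.2.2] →
      ∀ T : Matrix (Fin 3) (Fin 3) ℂ,
        NT x T q.2 ≤ C * (NT x T q.1.1 + NT x T q.1.2.1 + NT x T q.1.2.2) := by
    intro q
    by_cases hq : LinearIndependent ℂ ![x q.1.1, x q.1.2.1, x q.1.2.2]
    · obtain ⟨C, hC⟩ := G1_comb x hq q.2
      exact ⟨C, fun _ => hC⟩
    · exact ⟨0, fun hh => absurd hh hq⟩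
  choose g hg using hC
  obtain ⟨Cb, hCb, hCb2⟩ := G1_fin_upper (fun _ : (Fin n × Fin n × Fin n) × Fin n => True) g
  refine ⟨min δ₁ δ₂, lt_min hδ₁ hδ₂,
    (∑ i, c i) / 3 * (Real.log 36 - Real.log d) + min δ₁ δ₂ * Real.log (3 * Cb), ?_⟩
  intro T hT a b
  refine G1_main h (lt_min hδ₁ hδ₂) hd hCb (fun i => (min_le_left _ _).trans (h1 i trivial))
    (fun i j hij => (min_le_right _ _).trans (h2 (i, j) hij))
    (fun i j k hh => hdd (i, j, k) hh) ?_ T hT a b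
  intro i j k hh a T
  refine (hg ((i, j, k), a) hh T).trans ?_
  exact mul_le_mul_of_nonneg_right (hCb2 _ trivial)
    (add_nonneg (add_nonneg (G1_nsq_nonneg _) (G1_nsq_nonneg _)) (G1_nsq_nonneg _))

end Pool.Agent.Lib.H64A
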