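import Pool.Agent.Lib.H64A.G1

/-!
# H64A, chunk G2: existence of the minimum
-/

set_option autoImplicit false

namespace Pool.Agent.Lib.H64A

open Finset

/-- the squared Hilbert-Schmidt norm -/
noncomputable def g2_N (T : Fin 3 → Fin 3 → ℂ) : ℝ := ∑ i, ∑ j, ‖T i j‖ ^ 2

theorem g2_nsq_nonneg (v : Fin 3 → ℂ) : 0 ≤ nsq v := Finset.sum_nonneg fun j _ => by positivity

theorem g2_nsq_pos {v : Fin 3 → ℂ} (hv : v ≠ 0) : 0 < nsq v := by
  obtain ⟨j, hj⟩ := Function.ne_iff.1 hv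
  refine Finset.sum_pos' (fun j _ => by positivity) ⟨j, mem_univ j, ?_⟩
  have : 0 < ‖v j‖ := norm_pos_iff.2 hj
  positivity

theorem g2_x_ne {n : ℕ} {x : Fin n → Fin 3 → ℂ} {c : Fin n → ℝ} (h : Stab x c) (i : Fin n) :
    x i ≠ 0 := by
  obtain ⟨a, b, _, hab⟩ := h.gen
  have hne : a ≠ b := by
    rintro rfl
    have := hab.injective
    have h1 := @this 0 1 (by simp)
    simp at h1
  by_cases hia : i = a
  · have h1 := h.ind i b (by rw [hia]; exact hne)
    exact h1.ne_zero 0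
  · have h1 := h.ind i a hia
    exact h1.ne_zero 0

theorem g2_NT_pos {n : ℕ} {x : Fin n → Fin 3 → ℂ} {c : Fin n → ℝ} (h : Stab x c)
    {T : Matrix (Fin 3) (Fin 3) ℂ} (hT : T.det ≠ 0) (i : Fin n) : 0 < NT x T i := by
  unfold NT
  refine g2_nsq_pos fun h0 => g2_x_ne h i ?_
  exact Matrix.eq_zero_of_mulVec_eq_zero hT h0

theorem g2_C_pos {n : ℕ} {x : Fin n → Fin 3 → ℂ} {c : Fin n → ℝ} (h : Stab x c) :
    0 < ∑ i, c i := by
  obtain ⟨a, _, _, _⟩ := h.gen
  exact Finset.sum_pos (fun i _ => h.pos i) ⟨a, mem_univ a⟩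

theorem g2_NT_smul {n : ℕ} (x : Fin n → Fin 3 → ℂ) (T : Matrix (Fin 3) (Fin 3) ℂ) (r : ℝ)
    (i : Fin n) : NT x ((r : ℂ) • T) i = r ^ 2 * NT x T i := by
  unfold NT nsq
  rw [Matrix.smul_mulVec, Finset.mul_sum]
  refine Finset.sum_congr rfl fun j _ => ?_
  rw [Pi.smul_apply, smul_eq_mul, norm_mul, mul_pow, Complex.norm_real, Real.norm_eq_abs, sq_abs]

theorem g2_FT_smul {n : ℕ} {x : Fin n → Fin 3 → ℂ} {c : Fin n → ℝ} (h : Stab x c)
    {T : Matrix (Fin 3) (Fin 3) ℂ} (hT : T.det ≠ 0) {r : ℝ} (hr : 0 < r) :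
    FT x c ((r : ℂ) • T) = FT x c T := by
  unfold FT
  have h1 : ∀ i, Real.log (NT x ((r : ℂ) • T) i) = 2 * Real.log r + Real.log (NT x T i) := by
    intro i
    rw [g2_NT_smul, Real.log_mul (by positivity) (g2_NT_pos h hT i).ne', Real.log_pow]
    push_cast
    ring
  have h2 : Real.log (‖((r : ℂ) • T).det‖ ^ 2) = 6 * Real.log r + Real.log (‖T.det‖ ^ 2) := by
    rw [Matrix.det_smul, Fintype.card_fin, norm_mul, norm_pow, Complex.norm_real,
      Real.norm_of_nonneg hr.le, mul_pow, Real.log_mul (by positivity)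
        (by have := norm_pos_iff.2 hT; positivity), ← pow_mul, Real.log_pow]
    push_cast
    ring
  simp only [h1, h2]
  have h3 : ∑ i, c i * (2 * Real.log r + Real.log (NT x T i)) =
      2 * Real.log r * ∑ i, c i + ∑ i, c i * Real.log (NT x T i) := by
    rw [Finset.mul_sum, ← Finset.sum_add_distrib]
    refine Finset.sum_congr rfl fun i _ => ?_
    ring
  rw [h3]
  ring

theorem g2_cont_N : Continuous g2_N := by
  unfold g2_N
  fun_prop

theorem g2_cont_NT {n : ℕ} (x : Fin n → Fin 3 → ℂ) (i : Fin n) :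
    Continuous fun T : Fin 3 → Fin 3 → ℂ => NT x (Matrix.of T) i := by
  unfold NT nsq Matrix.mulVec dotProduct
  simp only [Matrix.of_apply]
  fun_prop

theorem g2_cont_det : Continuous fun T : Fin 3 → Fin 3 → ℂ => (Matrix.of T).det := by
  simp only [Matrix.det_fin_three, Matrix.of_apply]
  fun_prop

theorem g2_compact : IsCompact {T : Fin 3 → Fin 3 → ℂ | g2_N T = 1} := by
  refine Metric.isCompact_of_isClosed_isBounded (isClosed_eq g2_cont_N continuous_const) ?_
  refine (Metric.isBounded_closedBall (x := (0 : Fin 3 → Fin 3 → ℂ)) (r := 1)).subset ?_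
  intro T hT
  rw [mem_closedBall_zero_iff, pi_norm_le_iff_of_nonneg zero_le_one]
  intro i
  rw [pi_norm_le_iff_of_nonneg zero_le_one]
  intro j
  have h1 : ‖T i j‖ ^ 2 ≤ 1 := by
    have h2 : g2_N T = 1 := hT
    rw [← h2]
    unfold g2_N
    calc ‖T i j‖ ^ 2 ≤ ∑ j, ‖T i j‖ ^ 2 :=
          Finset.single_le_sum (f := fun j => ‖T i j‖ ^ 2) (fun j _ => by positivity) (mem_univ j)
      _ ≤ ∑ i, ∑ j, ‖T i j‖ ^ 2 :=
          Finset.single_le_sum (f := fun i => ∑ j, ‖T i j‖ ^ 2)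
            (fun i _ => Finset.sum_nonneg fun j _ => by positivity) (mem_univ i)
  have h3 : 0 ≤ ‖T i j‖ := norm_nonneg _
  nlinarith

theorem g2_N_smul (T : Fin 3 → Fin 3 → ℂ) (r : ℝ) :
    g2_N (fun i j => (r : ℂ) * T i j) = r ^ 2 * g2_N T := by
  unfold g2_N
  rw [Finset.mul_sum]
  refine Finset.sum_congr rfl fun i _ => ?_
  rw [Finset.mul_sum]
  refine Finset.sum_congr rfl fun j _ => ?_
  rw [norm_mul, mul_pow, Complex.norm_real, Real.norm_eq_abs, sq_abs]

/-- the vectors span -/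
theorem g2_sum_pos {n : ℕ} {x : Fin n → Fin 3 → ℂ} {c : Fin n → ℝ} (h : Stab x c)
    (T : Fin 3 → Fin 3 → ℂ) (hT : g2_N T = 1) : 0 < ∑ a, NT x (Matrix.of T) a := by
  have hnn : ∀ a, 0 ≤ NT x (Matrix.of T) a := fun a => g2_nsq_nonneg _
  refine lt_of_le_of_ne (Finset.sum_nonneg fun a _ => hnn a) fun h0 => ?_
  have h1 : ∀ a, (Matrix.of T).mulVec (x a) = 0 := by
    intro a
    by_contra hne
    have h2 := g2_nsq_pos hne
    have h3 := Finset.single_le_sum (f := fun a => NT x (Matrix.of T) a) (fun a _ => hnn a)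
      (mem_univ a)
    rw [← h0] at h3
    have h4 : NT x (Matrix.of T) a = nsq ((Matrix.of T).mulVec (x a)) := rfl
    simp only [h4] at h3
    linarith
  obtain ⟨i, j, k, hind⟩ := h.gen
  have hspan := hind.span_eq_top_of_card_eq_finrank' (by simp)
  have h5 : ∀ v : Fin 3 → ℂ, (Matrix.of T).mulVec v = 0 := by
    intro v
    have hv : v ∈ Submodule.span ℂ (Set.range ![x i, x j, x k]) := by
      rw [hspan]
      trivial
    have h6 : Submodule.span ℂ (Set.range ![x i, x j, x k]) ≤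
        LinearMap.ker (Matrix.mulVecLin (Matrix.of T)) := by
      rw [Submodule.span_le]
      rintro _ ⟨m, rfl⟩
      rw [SetLike.mem_coe, LinearMap.mem_ker, Matrix.mulVecLin_apply]
      fin_cases m
      · exact h1 i
      · exact h1 j
      · exact h1 k
    have h7 := h6 hv
    rwa [LinearMap.mem_ker, Matrix.mulVecLin_apply] at h7
  have h8 : T = fun _ _ => 0 := by
    funext a b
    have h9 := congrFun (h5 (Pi.single b 1)) a
    rw [Matrix.mulVec_single_one] at h9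
    exact h9
  rw [h8] at hT
  unfold g2_N at hT
  simp at hT

/-- **Chunk G2.** `FT` attains its minimum on the invertible matrices.

Proof. `FT (λ T) = FT T` for real `λ > 0`: `NT (λ T) = λ² NT T`, `det (λ T) = λ³ det T`, and `C * 2 log λ - (C/3) * 6 log λ = 0`.
So it is enough to treat matrices with `∑ ‖T i j‖² = 1`. On this compact sphere the continuous function
`max_a NT x T a` (or `∑ a, NT x T a`) is positive (the `x a` span `ℂ³` by `gen`, so `T x a = 0` for all `a` implies `T = 0`),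
hence at least `κ > 0`. Let `M = FT x c (r • 1)` with `r` normalising the identity. If `T` is on the sphere, invertible and `FT T ≤ M`,
then by `coercive` for a suitable `a` and all `b`: `log NT b ≥ log NT a - (M + K)/ε ≥ log κ' - (M + K)/ε`, so
`(C/3) log ‖det T‖² = ∑ c log NT - FT T ≥ const`, i.e. `‖det T‖ ≥ δ` with some `δ > 0` independent of `T`. The set
`{T | ∑ ‖T i j‖² = 1, δ ≤ ‖det T‖}` is compact (closed and bounded) and contains the normalised identity (decrease `δ` if necessary);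
`FT` is continuous on it (`NT > 0` there), so it attains a minimum at `T₀`, and `FT T₀ ≤ M`. For every other `T` on the sphere
with `det T ≠ 0` either `‖det T‖ ≥ δ` or `FT T > M ≥ FT T₀`. -/
theorem exists_min {n : ℕ} {x : Fin n → Fin 3 → ℂ} {c : Fin n → ℝ} (h : Stab x c) :
    ∃ T₀ : Matrix (Fin 3) (Fin 3) ℂ, T₀.det ≠ 0 ∧
      ∀ T : Matrix (Fin 3) (Fin 3) ℂ, T.det ≠ 0 → FT x c T₀ ≤ FT x c T := by
  obtain ⟨ε, hε, K, hK⟩ := coercive h
  have hC := g2_C_pos h
  obtain ⟨C, hCd⟩ : ∃ C, C = ∑ i, c i := ⟨_, rfl⟩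
  rw [← hCd] at hC
  -- the normalised identity
  obtain ⟨T₁, hT₁⟩ : ∃ T₁ : Fin 3 → Fin 3 → ℂ,
      T₁ = fun i j => ((√3)⁻¹ : ℝ) * (1 : Matrix (Fin 3) (Fin 3) ℂ) i j := ⟨_, rfl⟩
  have hs3 : (0 : ℝ) < √3 := Real.sqrt_pos.2 (by norm_num)
  have hN1 : g2_N T₁ = 1 := by
    have h1 := g2_N_smul (fun i j => (1 : Matrix (Fin 3) (Fin 3) ℂ) i j) (√3)⁻¹
    rw [hT₁, h1, inv_pow, Real.sq_sqrt (by norm_num)]
    unfold g2_N
    simp [Fin.sum_univ_three, Matrix.one_apply]
    norm_num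
  have hT₁' : Matrix.of T₁ = (((√3)⁻¹ : ℝ) : ℂ) • (1 : Matrix (Fin 3) (Fin 3) ℂ) := by
    ext i j
    rw [hT₁]
    simp
  have hdet1 : (Matrix.of T₁).det ≠ 0 := by
    rw [hT₁', Matrix.det_smul, Matrix.det_one, mul_one, Fintype.card_fin]
    refine pow_ne_zero _ ?_
    exact_mod_cast (inv_pos.2 hs3).ne'
  obtain ⟨M, hM⟩ : ∃ M, M = FT x c (Matrix.of T₁) := ⟨_, rfl⟩
  -- the lower bound
  obtain ⟨Tm, hTm, hmin⟩ := g2_compact.exists_isMinOn ⟨T₁, hN1⟩
    (continuous_finsetSum univ fun a _ => g2_cont_NT x a).continuousOn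
  obtain ⟨κ, hκd⟩ : ∃ κ, κ = ∑ a, NT x (Matrix.of Tm) a := ⟨_, rfl⟩
  have hκ : 0 < κ := by rw [hκd]; exact g2_sum_pos h Tm hTm
  have hn : 0 < (n : ℝ) := by
    obtain ⟨a, _, _, _⟩ := h.gen
    exact_mod_cast a.pos
  obtain ⟨L, hL⟩ : ∃ L, L = Real.log (κ / n) - (M + K) / ε := ⟨_, rfl⟩
  have hlow : ∀ T : Fin 3 → Fin 3 → ℂ, g2_N T = 1 → (Matrix.of T).det ≠ 0 →
      FT x c (Matrix.of T) ≤ M → Real.exp ((C * L - M) * 3 / C / 2) ≤ ‖(Matrix.of T).det‖ := by
    intro T hT hdet hFT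
    have h1 : κ ≤ ∑ a, NT x (Matrix.of T) a := by
      rw [hκd]
      exact hmin hT
    obtain ⟨a, ha⟩ : ∃ a, κ / n ≤ NT x (Matrix.of T) a := by
      by_contra hcon
      push Not at hcon
      have h2 : ∑ a, NT x (Matrix.of T) a < ∑ a : Fin n, κ / n := by
        obtain ⟨a, _, _, _⟩ := h.gen
        exact Finset.sum_lt_sum_of_nonempty ⟨a, mem_univ a⟩ fun a _ => hcon a
      rw [Finset.sum_const, card_univ, Fintype.card_fin, nsmul_eq_mul,
        mul_div_cancel₀ _ hn.ne'] at h2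
      linarith
    have h3 : ∀ b, L ≤ Real.log (NT x (Matrix.of T) b) := by
      intro b
      have h4 := hK (Matrix.of T) hdet a b
      have h5 : Real.log (κ / n) ≤ Real.log (NT x (Matrix.of T) a) :=
        Real.log_le_log (by positivity) ha
      have h6 : Real.log (NT x (Matrix.of T) a) - Real.log (NT x (Matrix.of T) b) ≤ (M + K) / ε := by
        rw [le_div_iff₀ hε]
        linarith
      rw [hL]
      linarith
    have h7 : C * L ≤ ∑ b, c b * Real.log (NT x (Matrix.of T) b) := by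
      rw [hCd, Finset.sum_mul]
      exact Finset.sum_le_sum fun b _ => mul_le_mul_of_nonneg_left (h3 b) (h.pos b).le
    have h8 : FT x c (Matrix.of T) = ∑ b, c b * Real.log (NT x (Matrix.of T) b) -
        C / 3 * Real.log (‖(Matrix.of T).det‖ ^ 2) := by
      rw [hCd]
      rfl
    have hd : 0 < ‖(Matrix.of T).det‖ := norm_pos_iff.2 hdet
    rw [Real.log_pow] at h8
    push_cast at h8
    have h9 : (C * L - M) * 3 / C / 2 ≤ Real.log ‖(Matrix.of T).det‖ := by
      rw [div_div, div_le_iff₀ (by positivity)]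
      nlinarith
    rw [← Real.log_le_log_iff (Real.exp_pos _) hd, Real.log_exp]
    exact h9
  obtain ⟨δ, hδd⟩ : ∃ δ, δ = Real.exp ((C * L - M) * 3 / C / 2) := ⟨_, rfl⟩
  rw [← hδd] at hlow
  have hδ : 0 < δ := by rw [hδd]; exact Real.exp_pos _
  have hcomp : IsCompact ({T : Fin 3 → Fin 3 → ℂ | g2_N T = 1} ∩
      {T | δ ≤ ‖(Matrix.of T).det‖}) :=
    g2_compact.inter_right (isClosed_le continuous_const g2_cont_det.norm)
  have hmem1 : T₁ ∈ {T : Fin 3 → Fin 3 → ℂ | g2_N T = 1} ∩ {T | δ ≤ ‖(Matrix.of T).det‖} :=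
    ⟨hN1, hlow T₁ hN1 hdet1 hM.ge⟩
  have hcont : ContinuousOn (fun T : Fin 3 → Fin 3 → ℂ => FT x c (Matrix.of T))
      ({T : Fin 3 → Fin 3 → ℂ | g2_N T = 1} ∩ {T | δ ≤ ‖(Matrix.of T).det‖}) := by
    have hdne : ∀ T ∈ ({T : Fin 3 → Fin 3 → ℂ | g2_N T = 1} ∩
        {T | δ ≤ ‖(Matrix.of T).det‖}), (Matrix.of T).det ≠ 0 := by
      intro T hT
      have h1 : δ ≤ ‖(Matrix.of T).det‖ := hT.2
      exact norm_pos_iff.1 (hδ.trans_le h1)
    unfold FT
    refine ContinuousOn.sub ?_ ?_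
    · refine continuousOn_finsetSum _ fun i _ => ?_
      refine continuousOn_const.mul (ContinuousOn.log (g2_cont_NT x i).continuousOn ?_)
      intro T hT
      exact (g2_NT_pos h (hdne T hT) i).ne'
    · refine continuousOn_const.mul (ContinuousOn.log ((g2_cont_det.norm).pow 2).continuousOn ?_)
      intro T hT
      have := norm_pos_iff.2 (hdne T hT)
      positivity
  obtain ⟨T₀, hT₀, hmin₀⟩ := hcomp.exists_isMinOn ⟨T₁, hmem1⟩ hcont
  refine ⟨Matrix.of T₀, ?_, ?_⟩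
  · have h1 : δ ≤ ‖(Matrix.of T₀).det‖ := hT₀.2
    exact norm_pos_iff.1 (hδ.trans_le h1)
  · intro T hT
    have hNpos : 0 < g2_N T := by
      by_contra hcon
      have h1 : g2_N T = 0 := le_antisymm (not_lt.1 hcon)
        (Finset.sum_nonneg fun i _ => Finset.sum_nonneg fun j _ => by positivity)
      apply hT
      have h2 : ∀ i j, T i j = 0 := by
        intro i j
        unfold g2_N at h1
        rw [Finset.sum_eq_zero_iff_of_nonneg
          (fun i _ => Finset.sum_nonneg fun j _ => by positivity)] at h1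
        have h3 := h1 i (mem_univ i)
        rw [Finset.sum_eq_zero_iff_of_nonneg (fun j _ => by positivity)] at h3
        have h4 := h3 j (mem_univ j)
        exact norm_eq_zero.1 (pow_eq_zero_iff two_ne_zero |>.1 h4)
      have h3 : T = 0 := by
        ext i j
        exact h2 i j
      rw [h3, Matrix.det_zero]
    obtain ⟨r, hr⟩ : ∃ r, r = (√(g2_N T))⁻¹ := ⟨_, rfl⟩
    have hr0 : 0 < r := by rw [hr]; exact inv_pos.2 (Real.sqrt_pos.2 hNpos)
    obtain ⟨T', hT'⟩ : ∃ T' : Fin 3 → Fin 3 → ℂ, T' = fun i j => (r : ℂ) * T i j := ⟨_, rfl⟩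
    have hT'1 : Matrix.of T' = (r : ℂ) • T := by
      ext i j
      rw [hT']
      simp
    have hN' : g2_N T' = 1 := by
      have h1 : g2_N T' = r ^ 2 * g2_N T := by
        rw [hT']
        exact g2_N_smul T r
      rw [h1, hr, inv_pow, Real.sq_sqrt hNpos.le, inv_mul_cancel₀ hNpos.ne']
    have hdet' : (Matrix.of T').det ≠ 0 := by
      rw [hT'1, Matrix.det_smul]
      refine mul_ne_zero (pow_ne_zero _ ?_) hT
      exact_mod_cast hr0.ne'
    rw [← g2_FT_smul h hT hr0, ← hT'1]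
    by_cases hle : FT x c (Matrix.of T') ≤ M
    · exact hmin₀ ⟨hN', hlow T' hN' hdet' hle⟩
    · refine le_trans ?_ (not_le.1 hle).le
      rw [hM]
      exact hmin₀ hmem1

end Pool.Agent.Lib.H64A
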