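import Pool.Agent.Lib.H64A.Defs

/-!
# H64A, chunk G3: the minimum is isotropic
-/

set_option autoImplicit false

namespace Pool.Agent.Lib.H64A

open Finset

/-- the matrix `1 + s u u*` -/
noncomputable def g3_M (s : ℝ) (u : Fin 3 → ℂ) : Matrix (Fin 3) (Fin 3) ℂ :=
  1 + Matrix.of fun j k => (s : ℂ) * (u j * starRingEnd ℂ (u k))

theorem g3_mulVec (s : ℝ) (u y : Fin 3 → ℂ) :
    (g3_M s u).mulVec y = fun j => y j + s * hp u y * u j := by
  funext j
  unfold g3_M hp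
  rw [Matrix.add_mulVec, Matrix.one_mulVec]
  simp only [Pi.add_apply, Matrix.mulVec, dotProduct, Matrix.of_apply]
  congr 1
  rw [Finset.mul_sum, Finset.sum_mul]
  refine Finset.sum_congr rfl fun k _ => ?_
  ring

theorem g3_uu (u : Fin 3 → ℂ) : ∑ j, u j * starRingEnd ℂ (u j) = (nsq u : ℂ) := by
  unfold nsq
  push_cast
  refine Finset.sum_congr rfl fun j _ => ?_
  rw [Complex.mul_conj, Complex.normSq_eq_norm_sq]
  push_cast
  rfl

theorem g3_det (s : ℝ) (u : Fin 3 → ℂ) (hu : nsq u = 1) : (g3_M s u).det = 1 + s := by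
  have h1 := g3_uu u
  rw [hu, Fin.sum_univ_three] at h1
  push_cast at h1
  unfold g3_M
  rw [Matrix.det_fin_three]
  simp only [Matrix.add_apply, Matrix.of_apply, Matrix.one_apply]
  simp only [Fin.isValue, if_true, show (0 : Fin 3) ≠ 1 by decide, show (0 : Fin 3) ≠ 2 by decide,
    show (1 : Fin 3) ≠ 0 by decide, show (1 : Fin 3) ≠ 2 by decide, show (2 : Fin 3) ≠ 0 by decide,
    show (2 : Fin 3) ≠ 1 by decide, if_false]
  linear_combination (s : ℂ) * h1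

theorem g3_nsq (s : ℝ) (u y : Fin 3 → ℂ) (hu : nsq u = 1) :
    nsq ((g3_M s u).mulVec y) = nsq y + (2 * s + s ^ 2) * ‖hp u y‖ ^ 2 := by
  rw [g3_mulVec]
  have key : ((nsq fun j => y j + s * hp u y * u j : ℝ) : ℂ) =
      ((nsq y + (2 * s + s ^ 2) * ‖hp u y‖ ^ 2 : ℝ) : ℂ) := by
    rw [← g3_uu]
    push_cast
    rw [← g3_uu y]
    have h2 : ((‖hp u y‖ : ℂ)) ^ 2 = hp u y * starRingEnd ℂ (hp u y) := by
      rw [Complex.mul_conj, Complex.normSq_eq_norm_sq]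
      push_cast
      rfl
    have h3 := g3_uu u
    rw [hu] at h3
    rw [h2]
    obtain ⟨h, hh⟩ : ∃ h, h = hp u y := ⟨_, rfl⟩
    have h4 : starRingEnd ℂ h = ∑ j, u j * starRingEnd ℂ (y j) := by
      rw [hh]
      unfold hp
      rw [map_sum]
      refine Finset.sum_congr rfl fun j _ => ?_
      rw [map_mul, Complex.conj_conj]
    have h5 : h = ∑ j, starRingEnd ℂ (u j) * y j := hh
    rw [← hh]
    simp only [map_add, map_mul, Complex.conj_ofReal]
    have h6 : ∑ j, (y j + s * h * u j) * (starRingEnd ℂ (y j) +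
        s * starRingEnd ℂ h * starRingEnd ℂ (u j)) =
        ∑ j, y j * starRingEnd ℂ (y j) + s * h * ∑ j, u j * starRingEnd ℂ (y j) +
          s * starRingEnd ℂ h * ∑ j, starRingEnd ℂ (u j) * y j +
          s ^ 2 * h * starRingEnd ℂ h * ∑ j, u j * starRingEnd ℂ (u j) := by
      simp only [Fin.sum_univ_three]
      ring
    rw [h6, h3, ← h4, ← h5]
    push_cast
    ring
  exact_mod_cast key

theorem g3_nsq_nonneg (v : Fin 3 → ℂ) : 0 ≤ nsq v := Finset.sum_nonneg fun j _ => by positivity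

theorem g3_nsq_pos {v : Fin 3 → ℂ} (hv : v ≠ 0) : 0 < nsq v := by
  obtain ⟨j, hj⟩ := Function.ne_iff.1 hv
  refine Finset.sum_pos' (fun j _ => by positivity) ⟨j, mem_univ j, ?_⟩
  have : 0 < ‖v j‖ := norm_pos_iff.2 hj
  positivity

theorem g3_inj {T₀ : Matrix (Fin 3) (Fin 3) ℂ} (h0 : T₀.det ≠ 0) {v : Fin 3 → ℂ} (hv : v ≠ 0) :
    T₀.mulVec v ≠ 0 := by
  intro h
  exact hv (Matrix.eq_zero_of_mulVec_eq_zero h0 h)

theorem g3_unit {n : ℕ} {x : Fin n → Fin 3 → ℂ} {c : Fin n → ℝ} (hx : ∀ i, x i ≠ 0)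
    {T₀ : Matrix (Fin 3) (Fin 3) ℂ} (h0 : T₀.det ≠ 0)
    (hmin : ∀ T : Matrix (Fin 3) (Fin 3) ℂ, T.det ≠ 0 → FT x c T₀ ≤ FT x c T) (u : Fin 3 → ℂ)
    (hu : nsq u = 1) :
    ∑ i, c i * (‖hp u (T₀.mulVec (x i))‖ ^ 2 / nsq (T₀.mulVec (x i))) = (∑ i, c i) / 3 := by
  obtain ⟨y, hy⟩ : ∃ y : Fin n → Fin 3 → ℂ, y = fun i => T₀.mulVec (x i) := ⟨_, rfl⟩
  have hyi : ∀ i, T₀.mulVec (x i) = y i := fun i => by rw [hy]
  simp only [hyi]
  have hypos : ∀ i, 0 < nsq (y i) := fun i => by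
    rw [← hyi]
    exact g3_nsq_pos (g3_inj h0 (hx i))
  have hd : 0 < ‖T₀.det‖ := norm_pos_iff.2 h0
  let φ : ℝ → ℝ := fun s => ∑ i, c i * Real.log (nsq (y i) + (2 * s + s ^ 2) * ‖hp u (y i)‖ ^ 2) -
    (∑ i, c i) / 3 * Real.log ((1 + s) ^ 2 * ‖T₀.det‖ ^ 2)
  have hφ : ∀ s : ℝ, FT x c (g3_M s u * T₀) = φ s := by
    intro s
    unfold FT NT
    simp only [φ]
    congr 1
    · refine Finset.sum_congr rfl fun i _ => ?_
      rw [← Matrix.mulVec_mulVec, hyi, g3_nsq s u (y i) hu]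
    · rw [Matrix.det_mul, g3_det s u hu, norm_mul, mul_pow]
      congr 3
      have : (1 : ℂ) + s = ((1 + s : ℝ) : ℂ) := by push_cast; rfl
      rw [this, Complex.norm_real, Real.norm_eq_abs, sq_abs]
  have hφ0 : φ 0 = FT x c T₀ := by
    rw [← hφ 0]
    have : g3_M 0 u = 1 := by
      unfold g3_M
      ext j k
      simp
    rw [this, Matrix.one_mul]
  have hloc : IsLocalMin φ 0 := by
    have h1 : ∀ᶠ s : ℝ in nhds 0, -1 < s := lt_mem_nhds (by norm_num)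
    filter_upwards [h1] with s hs
    rw [hφ0, ← hφ s]
    refine hmin _ ?_
    rw [Matrix.det_mul, g3_det s u hu]
    refine mul_ne_zero ?_ h0
    have : (1 : ℂ) + s = ((1 + s : ℝ) : ℂ) := by push_cast; rfl
    rw [this]
    exact_mod_cast (by linarith : (1 + s : ℝ) ≠ 0)
  have hder : HasDerivAt φ (∑ i, c i * (2 * ‖hp u (y i)‖ ^ 2 / nsq (y i)) -
      (∑ i, c i) / 3 * 2) 0 := by
    have h1 : ∀ i, HasDerivAt (fun s : ℝ => c i *
        Real.log (nsq (y i) + (2 * s + s ^ 2) * ‖hp u (y i)‖ ^ 2))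
        (c i * (2 * ‖hp u (y i)‖ ^ 2 / nsq (y i))) 0 := by
      intro i
      have h2 : HasDerivAt (fun s : ℝ => nsq (y i) + (2 * s + s ^ 2) * ‖hp u (y i)‖ ^ 2)
          (2 * ‖hp u (y i)‖ ^ 2) 0 := by
        have h3 : HasDerivAt (fun s : ℝ => 2 * s + s ^ 2) 2 0 := by
          have h4 := ((hasDerivAt_id' (0 : ℝ)).const_mul 2).fun_add (hasDerivAt_pow 2 (0 : ℝ))
          simpa using h4
        exact (h3.mul_const (‖hp u (y i)‖ ^ 2)).const_add (nsq (y i))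
      have h5 := h2.log (by
        have := hypos i
        simp
        exact this.ne')
      have h6 := h5.const_mul (c i)
      simpa using h6
    have h2 : HasDerivAt (fun s : ℝ => (∑ i, c i) / 3 * Real.log ((1 + s) ^ 2 * ‖T₀.det‖ ^ 2))
        ((∑ i, c i) / 3 * 2) 0 := by
      have h3 : HasDerivAt (fun s : ℝ => (1 + s) ^ 2 * ‖T₀.det‖ ^ 2) (2 * ‖T₀.det‖ ^ 2) 0 := by
        have h4 := (((hasDerivAt_id (0 : ℝ)).const_add 1).pow 2).mul_const (‖T₀.det‖ ^ 2)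
        simpa using h4
      have h5 := (h3.log (by simp; exact h0)).const_mul ((∑ i, c i) / 3)
      have h6 : (∑ i, c i) / 3 * (2 * ‖T₀.det‖ ^ 2 / ((1 + 0) ^ 2 * ‖T₀.det‖ ^ 2)) =
          (∑ i, c i) / 3 * 2 := by
        have : ‖T₀.det‖ ^ 2 ≠ 0 := by positivity
        field_simp
        ring
      rw [h6] at h5
      exact h5
    exact (HasDerivAt.fun_sum fun i _ => h1 i).sub h2
  have hz := hloc.hasDerivAt_eq_zero hder
  have h7 : ∑ i, c i * (2 * ‖hp u (y i)‖ ^ 2 / nsq (y i)) =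
      2 * ∑ i, c i * (‖hp u (y i)‖ ^ 2 / nsq (y i)) := by
    rw [Finset.mul_sum]
    refine Finset.sum_congr rfl fun i _ => ?_
    ring
  rw [h7] at hz
  linarith

/-- **Chunk G3.** At a minimum of `FT` the normalised vectors `T₀ x i` are in isotropic position.

Proof. Both sides are homogeneous of degree two in `u`; the case `u = 0` is trivial, so let `nsq u = 1` (scale). For real `s > -1` let
`T_s = (1 + s u u*) T₀`. Then `det T_s = (1 + s) det T₀` (`Matrix.det_one_add_replicateCol_mul_replicateRow` or expand) and, with `y = T₀ x i`,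
`nsq ((1 + s u u*) y) = nsq y + (2 s + s²) ‖hp u y‖²` (use `nsq u = 1`). So
`φ(s) = FT x c T_s = ∑ c i log (nsq y_i + (2 s + s²) ‖hp u y_i‖²) - (C/3) log ((1 + s)² ‖det T₀‖²)` has a minimum at `s = 0`
among `s > -1`, and is differentiable there with derivative `∑ c i 2 ‖hp u y_i‖² / nsq y_i - (C/3) * 2`, which must vanish
(`IsLocalMin.hasDerivAt_eq_zero`). (`nsq y_i > 0` since `x i ≠ 0` and `T₀` is invertible.) -/
theorem isotropic {n : ℕ} {x : Fin n → Fin 3 → ℂ} {c : Fin n → ℝ} (hx : ∀ i, x i ≠ 0)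
    {T₀ : Matrix (Fin 3) (Fin 3) ℂ} (h0 : T₀.det ≠ 0)
    (hmin : ∀ T : Matrix (Fin 3) (Fin 3) ℂ, T.det ≠ 0 → FT x c T₀ ≤ FT x c T) (u : Fin 3 → ℂ) :
    ∑ i, c i * (‖hp u (T₀.mulVec (x i))‖ ^ 2 / nsq (T₀.mulVec (x i))) = (∑ i, c i) / 3 * nsq u := by
  by_cases hu : u = 0
  · subst hu
    have h1 : nsq (0 : Fin 3 → ℂ) = 0 := by simp [nsq]
    have h2 : ∀ y : Fin 3 → ℂ, hp 0 y = 0 := by
      intro y
      simp [hp]
    simp [h1, h2]
  · have hpos := g3_nsq_pos hu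
    obtain ⟨q, hq⟩ : ∃ q : ℝ, q = √(nsq u) := ⟨_, rfl⟩
    have hq0 : 0 < q := by rw [hq]; exact Real.sqrt_pos.2 hpos
    have hq2 : q ^ 2 = nsq u := by rw [hq]; exact Real.sq_sqrt hpos.le
    have hw : nsq (fun j => ((q⁻¹ : ℝ) : ℂ) * u j) = 1 := by
      unfold nsq
      have h1 : ∀ j, ‖((q⁻¹ : ℝ) : ℂ) * u j‖ ^ 2 = (q ^ 2)⁻¹ * ‖u j‖ ^ 2 := by
        intro j
        rw [norm_mul, Complex.norm_real, Real.norm_of_nonneg (by positivity), mul_pow, inv_pow]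
      simp only [h1]
      rw [← Finset.mul_sum]
      have h2 : ∑ j, ‖u j‖ ^ 2 = nsq u := rfl
      rw [h2, hq2, inv_mul_cancel₀ hpos.ne']
    have h3 := g3_unit hx h0 hmin _ hw
    have h4 : ∀ y : Fin 3 → ℂ, ‖hp (fun j => ((q⁻¹ : ℝ) : ℂ) * u j) y‖ ^ 2 =
        (nsq u)⁻¹ * ‖hp u y‖ ^ 2 := by
      intro y
      have h5 : hp (fun j => ((q⁻¹ : ℝ) : ℂ) * u j) y = ((q⁻¹ : ℝ) : ℂ) * hp u y := by
        unfold hp
        rw [Finset.mul_sum]
        refine Finset.sum_congr rfl fun j _ => ?_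
        rw [map_mul, Complex.conj_ofReal]
        ring
      rw [h5, norm_mul, Complex.norm_real, Real.norm_of_nonneg (by positivity), mul_pow, inv_pow, hq2]
    simp only [h4] at h3
    rw [← h3, Finset.sum_mul]
    refine Finset.sum_congr rfl fun i _ => ?_
    field_simp

end Pool.Agent.Lib.H64A
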