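import Pool.Agent.Lib.H64A.Defs

/-!
# H64A, chunk G4: unit vectors in a plane
-/

set_option autoImplicit false

namespace Pool.Agent.Lib.H64A

open Finset

theorem G4_hp_add (u v w : Fin 3 → ℂ) : hp u (v + w) = hp u v + hp u w := by
  unfold hp
  rw [← Finset.sum_add_distrib]
  refine Finset.sum_congr rfl fun j _ => ?_
  rw [Pi.add_apply, mul_add]

theorem G4_hp_smul (u v : Fin 3 → ℂ) (c : ℂ) : hp u (c • v) = c * hp u v := by
  unfold hp
  rw [Finset.mul_sum]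
  refine Finset.sum_congr rfl fun j _ => ?_
  rw [Pi.smul_apply, smul_eq_mul]
  ring

theorem G4_hp_conj (u v : Fin 3 → ℂ) : starRingEnd ℂ (hp u v) = hp v u := by
  unfold hp
  rw [map_sum]
  refine Finset.sum_congr rfl fun j _ => ?_
  rw [map_mul, Complex.conj_conj, mul_comm]

theorem G4_hp_self (u : Fin 3 → ℂ) : hp u u = ((nsq u : ℝ) : ℂ) := by
  unfold hp nsq
  rw [Complex.ofReal_sum]
  refine Finset.sum_congr rfl fun j _ => ?_
  rw [Complex.conj_mul', Complex.ofReal_pow]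

/-- a unit vector orthogonal to two given vectors -/
theorem G4_normal (a b : Fin 3 → ℂ) : ∃ ν : Fin 3 → ℂ, nsq ν = 1 ∧ hp ν a = 0 ∧ hp ν b = 0 := by
  let f : (Fin 3 → ℂ) →ₗ[ℂ] (Fin 2 → ℂ) :=
    { toFun := fun u => ![hp a u, hp b u]
      map_add' := by
        intro u v
        ext i
        fin_cases i
        · exact G4_hp_add a u v
        · exact G4_hp_add b u v
      map_smul' := by
        intro c u
        ext i
        fin_cases i
        · exact G4_hp_smul a u c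
        · exact G4_hp_smul b u c }
  have hf : LinearMap.ker f ≠ ⊥ := by
    apply LinearMap.ker_ne_bot_of_finrank_lt
    rw [Module.finrank_fin_fun, Module.finrank_fin_fun]
    norm_num
  obtain ⟨u, hu, hu0⟩ := Submodule.exists_mem_ne_zero_of_ne_bot hf
  rw [LinearMap.mem_ker] at hu
  have h1 : hp a u = 0 := congrFun hu 0
  have h2 : hp b u = 0 := congrFun hu 1
  have hn : 0 < nsq u := by
    unfold nsq
    obtain ⟨j, hj⟩ : ∃ j, u j ≠ 0 := by
      by_contra hcon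
      push Not at hcon
      exact hu0 (funext hcon)
    exact Finset.sum_pos' (fun j _ => by positivity) ⟨j, Finset.mem_univ j, by positivity⟩
  have hs : 0 < Real.sqrt (nsq u) := Real.sqrt_pos.2 hn
  have h1' : hp u a = 0 := by rw [← G4_hp_conj, h1, map_zero]
  have h2' : hp u b = 0 := by rw [← G4_hp_conj, h2, map_zero]
  have hsm : ∀ v, hp (((Real.sqrt (nsq u))⁻¹ : ℝ) • u) v = ((Real.sqrt (nsq u))⁻¹ : ℝ) * hp u v := by
    intro v
    unfold hp
    rw [Finset.mul_sum]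
    refine Finset.sum_congr rfl fun j _ => ?_
    rw [Pi.smul_apply, Complex.real_smul, map_mul, Complex.conj_ofReal]
    ring
  refine ⟨((Real.sqrt (nsq u))⁻¹ : ℝ) • u, ?_, ?_, ?_⟩
  · have e : nsq (((Real.sqrt (nsq u))⁻¹ : ℝ) • u) = (Real.sqrt (nsq u))⁻¹ ^ 2 * nsq u := by
      conv_lhs => unfold nsq
      conv_rhs => rw [show nsq u = ∑ j, ‖u j‖ ^ 2 from rfl]
      rw [Finset.mul_sum]
      refine Finset.sum_congr rfl fun j _ => ?_
      rw [Pi.smul_apply, norm_smul, mul_pow, Real.norm_of_nonneg (inv_nonneg.2 (Real.sqrt_nonneg _))]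
    rw [e, inv_pow, Real.sq_sqrt hn.le, inv_mul_cancel₀ hn.ne']
  · rw [hsm, h1', mul_zero]
  · rw [hsm, h2', mul_zero]

/-- the rank one matrix of a vector -/
noncomputable def G4_vec (y : Fin 3 → ℂ) : EuclideanSpace ℂ (Fin 3 × Fin 3) :=
  WithLp.toLp 2 fun q => y q.1 * starRingEnd ℂ (y q.2)

theorem G4_inner (y z : Fin 3 → ℂ) :
    inner ℂ (G4_vec y) (G4_vec z) = ((‖hp y z‖ ^ 2 : ℝ) : ℂ) := by
  rw [PiLp.inner_apply, Fintype.sum_prod_type]
  have e : ((‖hp y z‖ ^ 2 : ℝ) : ℂ) = hp y z * starRingEnd ℂ (hp y z) := by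
    rw [Complex.mul_conj', Complex.ofReal_pow]
  rw [e, G4_hp_conj]
  unfold hp
  rw [Finset.sum_mul_sum]
  refine Finset.sum_congr rfl fun i _ => Finset.sum_congr rfl fun j _ => ?_
  rw [RCLike.inner_apply]
  change z i * starRingEnd ℂ (z j) * starRingEnd ℂ (y i * starRingEnd ℂ (y j)) = _
  rw [map_mul, Complex.conj_conj]
  ring

/-- the projection orthogonal to a vector -/
noncomputable def G4_pr (ν : Fin 3 → ℂ) : EuclideanSpace ℂ (Fin 3 × Fin 3) :=
  WithLp.toLp 2 fun q => (if q.1 = q.2 then 1 else 0) - ν q.1 * starRingEnd ℂ (ν q.2)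

theorem G4_inner_pr (ν y : Fin 3 → ℂ) :
    inner ℂ (G4_pr ν) (G4_vec y) = ((nsq y : ℝ) : ℂ) - ((‖hp ν y‖ ^ 2 : ℝ) : ℂ) := by
  rw [← G4_inner, PiLp.inner_apply, PiLp.inner_apply, Fintype.sum_prod_type, Fintype.sum_prod_type,
    ← G4_hp_self]
  unfold hp
  rw [← Finset.sum_sub_distrib]
  refine Finset.sum_congr rfl fun i _ => ?_
  have h1 : ∑ j, inner ℂ ((G4_pr ν) (i, j)) ((G4_vec y) (i, j)) =
      ∑ j, ((if i = j then y i * starRingEnd ℂ (y j) else 0) -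
        inner ℂ ((G4_vec ν) (i, j)) ((G4_vec y) (i, j))) := by
    refine Finset.sum_congr rfl fun j _ => ?_
    rw [RCLike.inner_apply, RCLike.inner_apply]
    change y i * starRingEnd ℂ (y j) * starRingEnd ℂ ((if i = j then 1 else 0) -
      ν i * starRingEnd ℂ (ν j)) = _ - y i * starRingEnd ℂ (y j) *
        starRingEnd ℂ (ν i * starRingEnd ℂ (ν j))
    rw [map_sub]
    by_cases hij : i = j
    · rw [if_pos hij, if_pos hij, map_one]
      ring
    · rw [if_neg hij, if_neg hij, map_zero]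
      ring
  rw [h1, Finset.sum_sub_distrib, Finset.sum_ite_eq, if_pos (Finset.mem_univ _)]
  rw [mul_comm (y i)]

theorem G4_norm_pr (ν : Fin 3 → ℂ) (h : nsq ν = 1) : ‖G4_pr ν‖ ^ 2 = 2 := by
  have h0 : inner ℂ (G4_pr ν) (G4_pr ν) = ((‖G4_pr ν‖ ^ 2 : ℝ) : ℂ) := by
    rw [inner_self_eq_norm_sq_to_K]
    norm_cast
  have h1 : inner ℂ (G4_pr ν) (G4_pr ν) = (∑ i : Fin 3, inner ℂ (G4_pr ν)
      (G4_vec (Pi.single i 1))) - inner ℂ (G4_pr ν) (G4_vec ν) := by
    rw [← inner_sum, ← inner_sub_right]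
    congr 1
    ext q
    rw [PiLp.sub_apply, WithLp.ofLp_sum, Finset.sum_apply]
    change (if q.1 = q.2 then (1 : ℂ) else 0) - ν q.1 * starRingEnd ℂ (ν q.2) =
      (∑ i : Fin 3, (Pi.single i (1 : ℂ) : Fin 3 → ℂ) q.1 *
        starRingEnd ℂ ((Pi.single i (1 : ℂ) : Fin 3 → ℂ) q.2)) - ν q.1 * starRingEnd ℂ (ν q.2)
    congr 1
    rw [Finset.sum_eq_single q.1]
    · by_cases hq : q.1 = q.2
      · rw [if_pos hq, ← hq, Pi.single_eq_same, map_one, one_mul]
      · rw [if_neg hq, Pi.single_eq_of_ne (Ne.symm hq), map_zero, mul_zero]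
    · intro b _ hb
      rw [Pi.single_eq_of_ne hb.symm, zero_mul]
    · intro hb
      exact absurd (Finset.mem_univ _) hb
  have h2 : ∀ i : Fin 3, nsq (Pi.single i (1 : ℂ)) = 1 := by
    intro i
    unfold nsq
    rw [Finset.sum_eq_single i]
    · rw [Pi.single_eq_same, norm_one, one_pow]
    · intro b _ hb
      rw [Pi.single_eq_of_ne hb, norm_zero]
      norm_num
    · intro hb
      exact absurd (Finset.mem_univ _) hb
  have h3 : ∀ i : Fin 3, hp ν (Pi.single i (1 : ℂ)) = starRingEnd ℂ (ν i) := by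
    intro i
    unfold hp
    rw [Finset.sum_eq_single i]
    · rw [Pi.single_eq_same, mul_one]
    · intro b _ hb
      rw [Pi.single_eq_of_ne hb, mul_zero]
    · intro hb
      exact absurd (Finset.mem_univ _) hb
  have h4 : ‖hp ν ν‖ ^ 2 = 1 := by
    rw [G4_hp_self, h, Complex.ofReal_one, norm_one, one_pow]
  have h5 : (∑ i : Fin 3, inner ℂ (G4_pr ν) (G4_vec (Pi.single i 1))) = 2 := by
    have h6 : ∀ i : Fin 3, inner ℂ (G4_pr ν) (G4_vec (Pi.single i 1)) =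
        ((1 - ‖ν i‖ ^ 2 : ℝ) : ℂ) := by
      intro i
      rw [G4_inner_pr, h2, h3, RCLike.norm_conj]
      push_cast
      ring
    rw [Finset.sum_congr rfl fun i _ => h6 i, ← Complex.ofReal_sum]
    rw [Finset.sum_sub_distrib]
    have h7 : ∑ i : Fin 3, ‖ν i‖ ^ 2 = 1 := h
    rw [h7]
    norm_num
  rw [h5, G4_inner_pr, h, h4, sub_self, sub_zero] at h1
  rw [h1] at h0
  exact_mod_cast h0.symm

/-- **Chunk G4.** The energy of weighted unit vectors in a plane is at least half the square of the total weight.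

Proof. If `s` is empty, trivial. Let `e₁ = y i₀` for some `i₀ ∈ s`, and let `e₂` be a unit vector orthogonal to `e₁` such that all
`y i` are in the span of `e₁, e₂` (if all `y i` are proportional to `e₁` then all `‖hp (y i) (y j)‖ = 1` and the claim is trivial, since
`W²/2 ≤ W²`; otherwise take `y i - hp e₁ (y i) e₁` for one `i` and normalise; the span of `a, b` has dimension at most two).
Then `y i = α i e₁ + β i e₂`, `‖α i‖² + ‖β i‖² = 1`, `hp (y i) (y j) = conj (α i) α j + conj (β i) β j`, and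
`∑ w i w j ‖hp (y i) (y j)‖² = (∑ w ‖α‖²)² + (∑ w ‖β‖²)² + 2 ‖∑ w conj(α) β‖² ≥ P² + Q² ≥ (P + Q)²/2` with `P + Q = ∑ w`. -/
theorem local_ineq {α : Type*} (s : Finset α) (w : α → ℝ) (hw : ∀ i ∈ s, 0 ≤ w i)
    (y : α → Fin 3 → ℂ) (hy : ∀ i ∈ s, nsq (y i) = 1) (a b : Fin 3 → ℂ)
    (hs : ∀ i ∈ s, y i ∈ Submodule.span ℂ ({a, b} : Set (Fin 3 → ℂ))) :
    (∑ i ∈ s, w i) ^ 2 / 2 ≤ ∑ i ∈ s, ∑ j ∈ s, w i * w j * ‖hp (y i) (y j)‖ ^ 2 := by
  obtain ⟨ν, hν, hνa, hνb⟩ := G4_normal a b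
  have hνy : ∀ i ∈ s, hp ν (y i) = 0 := by
    intro i hi
    obtain ⟨p, q, hpq⟩ := Submodule.mem_span_pair.1 (hs i hi)
    rw [← hpq, G4_hp_add, G4_hp_smul, G4_hp_smul, hνa, hνb, mul_zero, mul_zero, add_zero]
  let V : EuclideanSpace ℂ (Fin 3 × Fin 3) := ∑ i ∈ s, ((w i : ℝ) : ℂ) • G4_vec (y i)
  have h1 : inner ℂ (G4_pr ν) V = ((∑ i ∈ s, w i : ℝ) : ℂ) := by
    change inner ℂ (G4_pr ν) (∑ i ∈ s, ((w i : ℝ) : ℂ) • G4_vec (y i)) = _
    rw [inner_sum, Complex.ofReal_sum]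
    refine Finset.sum_congr rfl fun i hi => ?_
    rw [inner_smul_right, G4_inner_pr, hy i hi, hνy i hi, norm_zero]
    norm_num
  have h2 : ‖V‖ ^ 2 = ∑ i ∈ s, ∑ j ∈ s, w i * w j * ‖hp (y i) (y j)‖ ^ 2 := by
    have h3 : inner ℂ V V = ((∑ i ∈ s, ∑ j ∈ s, w i * w j * ‖hp (y i) (y j)‖ ^ 2 : ℝ) : ℂ) := by
      change inner ℂ (∑ i ∈ s, ((w i : ℝ) : ℂ) • G4_vec (y i))
        (∑ i ∈ s, ((w i : ℝ) : ℂ) • G4_vec (y i)) = _
      rw [sum_inner, Complex.ofReal_sum]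
      refine Finset.sum_congr rfl fun i _ => ?_
      rw [inner_sum, Complex.ofReal_sum]
      refine Finset.sum_congr rfl fun j _ => ?_
      rw [inner_smul_left, inner_smul_right, G4_inner, Complex.conj_ofReal]
      push_cast
      ring
    have h4 : inner ℂ V V = ((‖V‖ ^ 2 : ℝ) : ℂ) := by
      rw [inner_self_eq_norm_sq_to_K]
      norm_cast
    rw [h4] at h3
    exact_mod_cast h3
  have h5 : ‖inner ℂ (G4_pr ν) V‖ ≤ ‖G4_pr ν‖ * ‖V‖ := norm_inner_le_norm _ _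
  rw [h1, Complex.norm_real, Real.norm_eq_abs] at h5
  have h6 : |∑ i ∈ s, w i| ^ 2 ≤ (‖G4_pr ν‖ * ‖V‖) ^ 2 := pow_le_pow_left₀ (abs_nonneg _) h5 2
  rw [sq_abs, mul_pow, G4_norm_pr ν hν, h2] at h6
  linarith

end Pool.Agent.Lib.H64A
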