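import Pool.Agent.Lib.H64A.G2
import Pool.Agent.Lib.H64A.G3
import Pool.Agent.Lib.H64A.G4
import Pool.Agent.Lib.H64A.B1

/-!
# H64A, chunk G5: the energy inequality
-/

set_option autoImplicit false

namespace Pool.Agent.Lib.H64A

open Finset

/-- **Chunk G5.** The energy inequality (an inequality of Hirzebruch type).

Proof. Take `T₀` of `exists_min`, `z i = T₀ x i`, `y i = z i / √(nsq (z i))`, so `nsq (y i) = 1`. By `isotropic` with `u = y j`:
`∑ i, c i ‖hp (y j) (y i)‖² = C/3`. Multiply by `c j` and sum over `j`: `∑_{i,j} c i c j ‖hp (y i) (y j)‖² = C²/3`. The diagonal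
terms give `∑ c i²`. The pairs `(i, j)`, `i ≠ j`, in `X × X` for the different `X ∈ Q` are disjoint (`blk_eq`: two different members determine the
block), all terms are nonnegative, and for `X = blk i j ∈ Q` all `y k`, `k ∈ X`, are in the span of `y i`, `y j` (`mem_blk_iff`,
linearity of `T₀`), so by `local_ineq` the sum over `X × X` is at least `(∑_X c)²/2`, and its diagonal part is `∑_X c²`. -/
theorem energy {n : ℕ} {x : Fin n → Fin 3 → ℂ} {c : Fin n → ℝ} (h : Stab x c)
    (Q : Finset (Finset (Fin n))) (hQ : Q ⊆ blks (dep x)) :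
    ∑ X ∈ Q, ((∑ i ∈ X, c i) ^ 2 / 2 - ∑ i ∈ X, c i ^ 2) ≤
      (∑ j, c j) ^ 2 / 3 - ∑ j, c j ^ 2 := by
  sorry

/-- **Chunk G5 (2).** -/
theorem sys_of_vectors {n : ℕ} {x : Fin n → Fin 3 → ℂ}
    (hx : ∀ i j, i ≠ j → LinearIndependent ℂ ![x i, x j])
    (hg : ∃ i j k, LinearIndependent ℂ ![x i, x j, x k]) : Sys (blks (dep x)) := by
  sorry

end Pool.Agent.Lib.H64A
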