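import Pool.Agent.Lib.H64A.Defs

/-!
# H64A, chunk G6: generic projection to dimension three
-/

set_option autoImplicit false

namespace Pool.Agent.Lib.H64A

open Finset

theorem G6_aux {ι : Type} [Finite ι] (n : ℕ) : ∀ (V : Type) [AddCommGroup V] [Module ℂ V]
    [FiniteDimensional ℂ V], Module.finrank ℂ V = n + 3 → ∀ U : ι → Submodule ℂ V,
    (∀ i, Module.finrank ℂ (U i) ≤ 3) →
    ∃ φ : V →ₗ[ℂ] (Fin 3 → ℂ), ∀ i, ∀ v ∈ U i, φ v = 0 → v = 0 := by
  classical
  have := Fintype.ofFinite ι
  induction n with
  | zero =>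
    intro V _ _ _ hV U _
    have e : V ≃ₗ[ℂ] (Fin 3 → ℂ) := LinearEquiv.ofFinrankEq V (Fin 3 → ℂ) (by simp [hV])
    exact ⟨e.toLinearMap, fun i v _ h => by simpa using h⟩
  | succ n ih =>
    intro V _ _ _ hV U hU
    have hnt : Nontrivial V := Module.nontrivial_of_finrank_pos (R := ℂ) (by omega)
    have htop : (⊤ : Submodule ℂ V) ∉ insert (⊥ : Submodule ℂ V) (Finset.univ.image U) := by
      intro h
      rw [Finset.mem_insert, Finset.mem_image] at h
      rcases h with h | ⟨i, -, h⟩
      · exact top_ne_bot h
      · have h1 := hU i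
        rw [h, finrank_top, hV] at h1
        omega
    have hcov := Subspace.biUnion_ne_univ_of_top_notMem htop
    obtain ⟨w, hw⟩ : ∃ w : V, w ∉ ⋃ p ∈ insert (⊥ : Submodule ℂ V) (Finset.univ.image U), (p : Set V) := by
      by_contra hcon
      push Not at hcon
      exact hcov (Set.eq_univ_of_forall hcon)
    simp only [Set.mem_iUnion, not_exists] at hw
    have hw0 : w ≠ 0 := by
      intro h
      exact hw ⊥ (Finset.mem_insert_self _ _) (by rw [h]; exact Submodule.zero_mem _)
    have hwU : ∀ i, w ∉ U i := fun i h =>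
      hw (U i) (Finset.mem_insert_of_mem (Finset.mem_image_of_mem U (Finset.mem_univ i))) h
    have hq : Module.finrank ℂ (V ⧸ Submodule.span ℂ {w}) = n + 3 := by
      have h1 := Submodule.finrank_quotient_add_finrank (Submodule.span ℂ {w})
      rw [finrank_span_singleton hw0, hV] at h1
      omega
    obtain ⟨φ, hφ⟩ := ih (V ⧸ Submodule.span ℂ {w}) hq
      (fun i => (U i).map (Submodule.mkQ (Submodule.span ℂ {w})))
      (fun i => (Submodule.finrank_map_le _ _).trans (hU i))
    refine ⟨φ.comp (Submodule.mkQ (Submodule.span ℂ {w})), fun i v hv h => ?_⟩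
    have h1 := hφ i (Submodule.mkQ (Submodule.span ℂ {w}) v) (Submodule.mem_map_of_mem hv) h
    rw [Submodule.mkQ_apply, Submodule.Quotient.mk_eq_zero, Submodule.mem_span_singleton] at h1
    obtain ⟨c, rfl⟩ := h1
    by_cases hc : c = 0
    · rw [hc, zero_smul]
    · exfalso
      apply hwU i
      have h2 := (U i).smul_mem c⁻¹ hv
      rwa [smul_smul, inv_mul_cancel₀ hc, one_smul] at h2

/-- **Chunk G6 (1).** Finitely many subspaces of dimension at most three of a space of dimension at least three are mapped injectively by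
some linear map to `ℂ³`.

Proof. Induction on `finrank V`. If it is three, take a linear equivalence (injective everywhere). If it is larger, the subspaces are proper, so
(`Subspace.biUnion_ne_univ_of_top_notMem` or similar, `ℂ` is infinite) there is `w` in none of them, `w ≠ 0` (if the family is empty choose any
`w ≠ 0`); the quotient map `V → V / ⟨w⟩` is injective on each subspace, its target has dimension `finrank V - 1 ≥ 3`, and
the images have dimension at most three. -/
theorem exists_proj {V : Type} [AddCommGroup V] [Module ℂ V] [FiniteDimensional ℂ V]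
    (h3 : 3 ≤ Module.finrank ℂ V) {ι : Type} [Finite ι] (U : ι → Submodule ℂ V)
    (hU : ∀ i, Module.finrank ℂ (U i) ≤ 3) :
    ∃ φ : V →ₗ[ℂ] (Fin 3 → ℂ), ∀ i, ∀ v ∈ U i, φ v = 0 → v = 0 := by
  obtain ⟨n, hn⟩ : ∃ n, Module.finrank ℂ V = n + 3 := ⟨Module.finrank ℂ V - 3, by omega⟩
  exact G6_aux n V hn U hU

/-- **Chunk G6 (2).** Apply `exists_proj` to `V = span (range f)` (or to `Fin l → ℂ`, which has dimension at least the rank) and the spans of the triples
`f i, f j, f k`; a linear map which is injective on the span of a family preserves and reflects its linear independence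
(`LinearMap.linearIndependent_iff_of_injOn` or `LinearIndependent.map`). The pairs: `i ≠ j`, take the triple `i, j, j`. A triple of
independent members exists because the rank is at least three (a maximal independent subfamily: `exists_linearIndependent` / if all triples
were dependent, the span would be contained in the span of two members). -/
theorem exists_plane {l n : ℕ} (f : Fin n → (Fin l → ℂ))
    (hf : ∀ i j : Fin n, i ≠ j → LinearIndependent ℂ ![f i, f j])
    (h3 : 3 ≤ Module.finrank ℂ (Submodule.span ℂ (Set.range f))) :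
    ∃ x : Fin n → Fin 3 → ℂ, (∀ i j, i ≠ j → LinearIndependent ℂ ![x i, x j]) ∧
      (∀ i j k, LinearIndependent ℂ ![x i, x j, x k] ↔ LinearIndependent ℂ ![f i, f j, f k]) ∧
      ∃ i j k, LinearIndependent ℂ ![x i, x j, x k] := by
  classical
  have hl : 3 ≤ Module.finrank ℂ (Fin l → ℂ) :=
    h3.trans (Submodule.finrank_le _)
  obtain ⟨φ, hφ⟩ := exists_proj hl
    (fun q : Fin n × Fin n × Fin n => Submodule.span ℂ (Set.range ![f q.1, f q.2.1, f q.2.2]))
    (fun q => by
      have := finrank_range_le_card (R := ℂ) ![f q.1, f q.2.1, f q.2.2]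
      simpa [Set.finrank] using this)
  have hinj : ∀ i j k, Set.InjOn φ (Submodule.span ℂ (Set.range ![f i, f j, f k])) := by
    intro i j k v hv v' hv' h
    have h1 := hφ (i, j, k) (v - v') (Submodule.sub_mem _ hv hv') (by rw [map_sub, h, sub_self])
    exact sub_eq_zero.1 h1
  have h3c : ∀ i j k, (![φ (f i), φ (f j), φ (f k)] : Fin 3 → Fin 3 → ℂ) = φ ∘ ![f i, f j, f k] := by
    intro i j k
    funext a
    fin_cases a <;> rfl
  have h2c : ∀ i j, (![φ (f i), φ (f j)] : Fin 2 → Fin 3 → ℂ) = φ ∘ ![f i, f j] := by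
    intro i j
    funext a
    fin_cases a <;> rfl
  have h3i : ∀ i j k, LinearIndependent ℂ ![φ (f i), φ (f j), φ (f k)] ↔
      LinearIndependent ℂ ![f i, f j, f k] := by
    intro i j k
    rw [h3c]
    exact ⟨fun h => LinearIndependent.of_comp φ h, fun h => h.map_injOn φ (hinj i j k)⟩
  refine ⟨fun i => φ (f i), ?_, h3i, ?_⟩
  · intro i j hij
    rw [h2c]
    refine (hf i j hij).map_injOn φ ((hinj i j j).mono ?_)
    refine Submodule.span_mono ?_
    rintro _ ⟨a, rfl⟩
    fin_cases a
    · exact ⟨0, rfl⟩
    · exact ⟨1, rfl⟩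
  · have hn3 : 3 ≤ n := by
      have h1 := finrank_range_le_card (R := ℂ) f
      rw [Fintype.card_fin] at h1
      exact h3.trans h1
    have hne : (⟨0, by omega⟩ : Fin n) ≠ ⟨1, by omega⟩ := by
      intro h
      have := congrArg Fin.val h
      simp at this
    set i : Fin n := ⟨0, by omega⟩ with hi
    set j : Fin n := ⟨1, by omega⟩ with hj
    obtain ⟨k, hk⟩ : ∃ k, f k ∉ Submodule.span ℂ (Set.range ![f i, f j]) := by
      by_contra hcon
      push Not at hcon
      have h1 : Submodule.span ℂ (Set.range f) ≤ Submodule.span ℂ (Set.range ![f i, f j]) := by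
        rw [Submodule.span_le]
        rintro _ ⟨k, rfl⟩
        exact hcon k
      have h2 := Submodule.finrank_mono h1
      have h4 := finrank_range_le_card (R := ℂ) ![f i, f j]
      rw [Fintype.card_fin] at h4
      have h5 : Module.finrank ℂ (Submodule.span ℂ (Set.range ![f i, f j])) ≤ 2 := h4
      omega
    refine ⟨k, i, j, (h3i k i j).2 ?_⟩
    have h1 : LinearIndependent ℂ (Fin.cons (f k) ![f i, f j] : Fin 3 → Fin l → ℂ) :=
      linearIndependent_finCons.2 ⟨hf i j hne, hk⟩
    exact h1

end Pool.Agent.Lib.H64A
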