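import Pool.Agent.Lib.H64A.Defs

/-!
# H64A, chunk O1: the local conditions of the Aomoto complex
-/

set_option autoImplicit false

namespace Pool.Agent.Lib.H64A

open Finset

/-- the sum over `X` -/
def O1_al {n p : ℕ} (X : Finset (Fin n)) : (Fin n → ZMod p) →ₗ[ZMod p] ZMod p where
  toFun u := ∑ k ∈ X, u k
  map_add' u v := by simp [Finset.sum_add_distrib]
  map_smul' c u := by simp [Finset.mul_sum]

/-- alternating form `α(u) v_a - u_a α(v)` -/
def O1_alt {n p : ℕ} (X : Finset (Fin n)) (a : Fin n) :
    (Fin n → ZMod p) [⋀^Fin 2]→ₗ[ZMod p] ZMod p where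
  toFun w := O1_al X (w 0) * w 1 a - w 0 a * O1_al X (w 1)
  map_update_add' m i x y := by
    fin_cases i <;> simp [Function.update, map_add] <;> ring
  map_update_smul' m i c x := by
    fin_cases i <;> simp [Function.update, map_smul] <;> ring
  map_eq_zero_of_eq' v i j h hij := by
    have h01 : v 0 = v 1 := by
      fin_cases i <;> fin_cases j
      · exact absurd rfl hij
      · exact h
      · exact h.symm
      · exact absurd rfl hij
    simp only [h01]
    ring

/-- the functional on the exterior algebra -/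
noncomputable def O1_L {n p : ℕ} (X : Finset (Fin n)) (a : Fin n) :
    ExteriorAlgebra (ZMod p) (Fin n → ZMod p) →ₗ[ZMod p] ZMod p :=
  ExteriorAlgebra.liftAlternating (R := ZMod p) (M := Fin n → ZMod p) (N := ZMod p)
    (Function.update (fun i => (0 : (Fin n → ZMod p) [⋀^Fin i]→ₗ[ZMod p] ZMod p)) 2 (O1_alt X a))

theorem O1_L_apply {n p : ℕ} (X : Finset (Fin n)) (a : Fin n) (u v : Fin n → ZMod p) :
    O1_L X a (ExteriorAlgebra.ι (ZMod p) u * ExteriorAlgebra.ι (ZMod p) v) =
      (∑ k ∈ X, u k) * v a - u a * ∑ k ∈ X, v k := by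
  have h1 : ExteriorAlgebra.ι (ZMod p) u * ExteriorAlgebra.ι (ZMod p) v =
      ExteriorAlgebra.ιMulti (ZMod p) 2 ![u, v] := by
    rw [ExteriorAlgebra.ιMulti_apply]
    simp
  rw [h1, O1_L, ExteriorAlgebra.liftAlternating_apply_ιMulti, Function.update_self]
  rfl

/-- **Chunk O1.** The local condition at a block.

Proof. For `a ∈ X` consider the alternating bilinear form `B(u, v) = ∑_{k, l ∈ X} (u k v l - u l v k) y l`... precisely: for a function
`y : X → ZMod p` put `B_y(u, v) = ∑_{k ∈ X} ∑_{l ∈ X} u k * v l * (y l - y k)`; it is alternating (`B_y(u, u) = 0` by exchanging `k` and `l`), so by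
`ExteriorAlgebra.liftAlternating` (only the component of degree two nonzero) there is a linear map `L` on the exterior algebra with
`L (ι u * ι v) = B_y(u, v)`. It vanishes on the generators of the span: for the triple `i, j, k` the value is
`c j k - c i k + c i j`, where `c a b = y b - y a` if `a, b ∈ X` and `0` otherwise; either all three of `i, j, k` are in `X` (then the sum is
`(y k - y j) - (y k - y i) + (y j - y i) = 0`), or at most one is (hypothesis `hX`), and all terms vanish.
So `0 = B_y(1, τ) = ∑_{k, l ∈ X} τ l (y l - y k) = ∑_l τ l (|X| y l - ∑ y)`. With `y` the indicator of `a`: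
`|X| τ a - ∑_{l ∈ X} τ l = 0`. -/
theorem local_cond {n p : ℕ} (D : Fin n → Fin n → Fin n → Prop) (X : Finset (Fin n))
    (hX : ∀ i j k, i ≠ j → i ≠ k → j ≠ k → D i j k →
      (i ∈ X → j ∈ X → k ∈ X) ∧ (i ∈ X → k ∈ X → j ∈ X) ∧ (j ∈ X → k ∈ X → i ∈ X))
    (τ : Fin n → ZMod p)
    (h : ExteriorAlgebra.ι (ZMod p) ((fun _ => (1 : ZMod p)) : Fin n → ZMod p) *
            ExteriorAlgebra.ι (ZMod p) τ ∈
          Submodule.span (ZMod p)
            {x | ∃ i j k : Fin n, i ≠ j ∧ i ≠ k ∧ j ≠ k ∧ D i j k ∧
              x = ExteriorAlgebra.ι (ZMod p) (Pi.single j (1 : ZMod p) : Fin n → ZMod p) *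
                    ExteriorAlgebra.ι (ZMod p) (Pi.single k (1 : ZMod p) : Fin n → ZMod p)
                  - ExteriorAlgebra.ι (ZMod p) (Pi.single i (1 : ZMod p) : Fin n → ZMod p) *
                    ExteriorAlgebra.ι (ZMod p) (Pi.single k (1 : ZMod p) : Fin n → ZMod p)
                  + ExteriorAlgebra.ι (ZMod p) (Pi.single i (1 : ZMod p) : Fin n → ZMod p) *
                    ExteriorAlgebra.ι (ZMod p) (Pi.single j (1 : ZMod p) : Fin n → ZMod p)}) :
    ∀ i ∈ X, (X.card : ZMod p) * τ i = ∑ j ∈ X, τ j := by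
  intro a ha
  have hker : ∀ x ∈ Submodule.span (ZMod p)
            {x | ∃ i j k : Fin n, i ≠ j ∧ i ≠ k ∧ j ≠ k ∧ D i j k ∧
              x = ExteriorAlgebra.ι (ZMod p) (Pi.single j (1 : ZMod p) : Fin n → ZMod p) *
                    ExteriorAlgebra.ι (ZMod p) (Pi.single k (1 : ZMod p) : Fin n → ZMod p)
                  - ExteriorAlgebra.ι (ZMod p) (Pi.single i (1 : ZMod p) : Fin n → ZMod p) *
                    ExteriorAlgebra.ι (ZMod p) (Pi.single k (1 : ZMod p) : Fin n → ZMod p)
                  + ExteriorAlgebra.ι (ZMod p) (Pi.single i (1 : ZMod p) : Fin n → ZMod p) *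
                    ExteriorAlgebra.ι (ZMod p) (Pi.single j (1 : ZMod p) : Fin n → ZMod p)},
      O1_L X a x = 0 := by
    intro x hx
    induction hx using Submodule.span_induction with
    | mem x hx =>
      obtain ⟨i, j, k, hij, hik, hjk, hD, rfl⟩ := hx
      obtain ⟨c1, c2, c3⟩ := hX i j k hij hik hjk hD
      rw [map_add, map_sub, O1_L_apply, O1_L_apply, O1_L_apply]
      have hs : ∀ b : Fin n, ∑ c ∈ X, (Pi.single b (1 : ZMod p) : Fin n → ZMod p) c =
          if b ∈ X then 1 else 0 := by
        intro b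
        simp [Pi.single_apply, Finset.sum_ite_eq']
      have hv : ∀ b : Fin n, b ∉ X → (Pi.single b (1 : ZMod p) : Fin n → ZMod p) a = 0 := by
        intro b hb
        rw [Pi.single_apply, if_neg]
        rintro rfl
        exact hb ha
      rw [hs, hs, hs]
      by_cases hi : i ∈ X
      · by_cases hj : j ∈ X
        · have hk := c1 hi hj
          rw [if_pos hi, if_pos hj, if_pos hk]
          ring
        · have hk : k ∉ X := fun hk => hj (c2 hi hk)
          rw [if_neg hj, if_neg hk, hv j hj, hv k hk]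
          ring
      · by_cases hj : j ∈ X
        · have hk : k ∉ X := fun hk => hi (c3 hj hk)
          rw [if_neg hi, if_neg hk, hv i hi, hv k hk]
          ring
        · rw [if_neg hi, if_neg hj, hv i hi, hv j hj]
          ring
    | zero => exact map_zero _
    | add x y _ _ hx hy => rw [map_add, hx, hy, add_zero]
    | smul c x _ hx => rw [map_smul, hx, smul_zero]
  have h1 := hker _ h
  rw [O1_L_apply] at h1
  simp only [Finset.sum_const, nsmul_eq_mul, mul_one, one_mul] at h1
  exact sub_eq_zero.1 h1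

end Pool.Agent.Lib.H64A
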