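import Pool.Agent.Lib.H64A.C11
import Pool.Agent.Lib.H64A.G5
import Pool.Agent.Lib.H64A.G6
import Pool.Agent.Lib.H64A.O1

/-!
# H64A, chunk Z: assembly
-/

set_option autoImplicit false

namespace Pool.Agent.Lib.H64A

open Finset

/-- **Chunk Z.** For every prime `p ≥ 7` the degree one cohomology of the Aomoto complex modulo `p` of a complex arrangement of rank at least three vanishes.

Proof. `exists_plane` gives `x` with `dep x = dep f`. `sys_of_vectors` gives `Sys (blks (dep x))`. `local_cond` with `D = dep f` (rewrite `¬ LinearIndependent`)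
for `X = blk (dep x) i j`, `i ≠ j`: the hypothesis `hX` follows from `blk_eq`/`mem_blk_left`/`mem_blk_right` (two different members `k, l` of `X` have
`blk k l = X`, and a dependent triple `k, l, m` has `m ∈ blk k l`; `dep` is symmetric, permute). Then `comb` shows that `τ` is constant, `τ = τ i₀ • 1`. -/
theorem main (l n : ℕ) (f : Fin n → (Fin l → ℂ))
    (hf : ∀ i j : Fin n, i ≠ j → LinearIndependent ℂ ![f i, f j])
    (h3 : 3 ≤ Module.finrank ℂ (Submodule.span ℂ (Set.range f)))
    (p : ℕ) (hp : p.Prime) (h7 : 7 ≤ p) (τ : Fin n → ZMod p)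
    (h : ExteriorAlgebra.ι (ZMod p) ((fun _ => (1 : ZMod p)) : Fin n → ZMod p) *
            ExteriorAlgebra.ι (ZMod p) τ ∈
          Submodule.span (ZMod p)
            {x | ∃ i j k : Fin n, i ≠ j ∧ i ≠ k ∧ j ≠ k ∧
              ¬ LinearIndependent ℂ ![f i, f j, f k] ∧
              x = ExteriorAlgebra.ι (ZMod p) (Pi.single j (1 : ZMod p) : Fin n → ZMod p) *
                    ExteriorAlgebra.ι (ZMod p) (Pi.single k (1 : ZMod p) : Fin n → ZMod p)
                  - ExteriorAlgebra.ι (ZMod p) (Pi.single i (1 : ZMod p) : Fin n → ZMod p) *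
                    ExteriorAlgebra.ι (ZMod p) (Pi.single k (1 : ZMod p) : Fin n → ZMod p)
                  + ExteriorAlgebra.ι (ZMod p) (Pi.single i (1 : ZMod p) : Fin n → ZMod p) *
                    ExteriorAlgebra.ι (ZMod p) (Pi.single j (1 : ZMod p) : Fin n → ZMod p)}) :
    τ ∈ Submodule.span (ZMod p) {((fun _ => (1 : ZMod p)) : Fin n → ZMod p)} := by
  sorry

end Pool.Agent.Lib.H64A
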